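import Pool.Agent.MP_7d676c_m.Reg
import Pool.Agent.Mg.F2e8011.G2c7daa

/-! Polynomial-time predicates as register programs: the tableau is filled by rules. -/

namespace Pool.Agent.MP_7d676c_m

open Turing Pool.Agent.MP_2e8011_lc Pool.Agent.MP_a6d740_lc Pool.Agent.MP_b0ee3d_lc
open Pool.Agent.MP_7d676c_lc

/-- A rule: the registers that must be positive, and the variable that is then set. -/
abbrev Rule := List (ℕ × ℕ) × ℕ

/-- The program of a rule. -/
def fire (q : Rule) : List (Ins (ℕ × ℕ)) :=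
  [(1, (0, 1), (0, 1), (0, 1))] ++
    (q.1.flatMap fun p => [(5, (0, 2), p, p), (4, (0, 1), (0, 1), (0, 2))]) ++
    [(5, (1, q.2), (1, q.2), (1, q.2)), (2, (1, q.2), (1, q.2), (0, 1))]

theorem conj_spec (l : List (ℕ × ℕ)) (h : ∀ p ∈ l, p.1 ≠ 0) (R : ℕ × ℕ → ℤ) :
    run (l.flatMap fun p => [(5, (0, 2), p, p), (4, (0, 1), (0, 1), (0, 2))]) R (0, 1) =
      if ∀ p ∈ l, 0 < R p then R (0, 1) else 0 := by
  induction l generalizing R with
  | nil => simp
  | cons p l ih =>
    have k : ∀ x ∈ l, step (step R (5, (0, 2), p, p)) (4, (0, 1), (0, 1), (0, 2)) x = R x :=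
      fun x hx => by simp [step_apply, Prod.ext_iff, h x (List.mem_cons_of_mem _ hx)]
    rw [List.flatMap_cons, run_append, ih fun x hx => h x (List.mem_cons_of_mem _ hx)]
    simp only [run_cons, run_nil, List.forall_mem_cons]
    rw [if_congr (forall₂_congr fun x hx => by rw [k x hx]) rfl rfl]
    have v : step (step R (5, (0, 2), p, p)) (4, (0, 1), (0, 1), (0, 2)) (0, 1) =
        R (0, 1) * if 0 < R p then 1 else 0 := by simp [step_apply]
    rw [v]
    by_cases e : 0 < R p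
    · simp only [e, true_and, if_true, mul_one]
    · simp only [e, false_and, if_false, mul_zero, ite_self]

theorem fire_spec (q : Rule) (h : ∀ p ∈ q.1, p.1 ≠ 0) (R : ℕ × ℕ → ℤ) (r : ℕ × ℕ) (hr : r.1 ≠ 0) :
    (r ≠ (1, q.2) → run (fire q) R r = R r) ∧
      (0 < run (fire q) R (1, q.2) ↔ 0 < R (1, q.2) ∨ ∀ p ∈ q.1, 0 < R p) := by
  have k : ∀ (x : ℕ × ℕ) (U : ℕ × ℕ → ℤ), x.1 ≠ 0 →
      run (q.1.flatMap fun p => [(5, (0, 2), p, p), (4, (0, 1), (0, 1), (0, 2))]) U x = U x :=
    fun x U hx => run_keep (by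
      intro s hs e
      simp only [List.mem_flatMap, List.mem_cons, List.not_mem_nil, or_false] at hs
      obtain ⟨p, -, rfl | rfl⟩ := hs <;> exact hx (e ▸ rfl)) U
  have k2 : ∀ x : ℕ × ℕ, x.1 ≠ 0 → step R (1, (0, 1), (0, 1), (0, 1)) x = R x :=
    fun x hx => by simp [step_apply, Prod.ext_iff, hx]
  rw [fire, run_append, run_append]
  refine ⟨fun e => by simp [step_apply, e, k r _ hr, Prod.ext_iff, hr], ?_⟩
  have c := conj_spec q.1 h (step R (1, (0, 1), (0, 1), (0, 1)))
  rw [if_congr (forall₂_congr fun x hx => by rw [k2 x (h x hx)]) rfl rfl] at c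
  have c2 := (k (1, q.2) (step R (1, (0, 1), (0, 1), (0, 1))) (by simp)).trans (k2 _ (by simp))
  simp only [run_cons, run_nil]
  generalize run (q.1.flatMap fun p => [(5, (0, 2), p, p), (4, (0, 1), (0, 1), (0, 2))])
    (step R (1, (0, 1), (0, 1), (0, 1))) = U at c c2
  have v : step (step U (5, (1, q.2), (1, q.2), (1, q.2))) (2, (1, q.2), (1, q.2), (0, 1))
      (1, q.2) = (if 0 < U (1, q.2) then 1 else 0) + U (0, 1) := by simp [step_apply]
  have v2 : step R (1, (0, 1), (0, 1), (0, 1)) (0, 1) = 1 := by simp [step_apply]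
  rw [v, c, c2, v2]
  split_ifs with e1 e2 e2
  · exact iff_of_true (by norm_num) (Or.inl e1)
  · exact iff_of_true (by norm_num) (Or.inl e1)
  · exact iff_of_true (by norm_num) (Or.inr e2)
  · exact iff_of_false (by norm_num) fun e => e.elim e1 e2

theorem horn_spec (L : List Rule) (h : ∀ q ∈ L, ∀ p ∈ q.1, p.1 ≠ 0) (R : ℕ × ℕ → ℤ) :
    (∀ r, 2 ≤ r.1 → run (L.flatMap fire) R r = R r) ∧
    (∀ r, r.1 ≠ 0 → 0 < R r → 0 < run (L.flatMap fire) R r) ∧
    (∀ q ∈ L, (∀ p ∈ q.1, 0 < R p) → 0 < run (L.flatMap fire) R (1, q.2)) ∧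
    ∀ τ : ℕ × ℕ → Prop, (∀ q ∈ L, (∀ p ∈ q.1, τ p) → τ (1, q.2)) →
      (∀ r, r.1 ≠ 0 → 0 < R r → τ r) → ∀ r, r.1 ≠ 0 → 0 < run (L.flatMap fire) R r → τ r := by
  induction L generalizing R with
  | nil => simp
  | cons q L ih =>
    obtain ⟨a1, a2, a3, a4⟩ := ih (fun x hx => h x (List.mem_cons_of_mem _ hx)) (run (fire q) R)
    have f := fire_spec q (h q List.mem_cons_self) R
    have m : ∀ r, r.1 ≠ 0 → 0 < R r → 0 < run (fire q) R r := fun r hr h0 => by
      by_cases e : r = (1, q.2)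
      · exact e ▸ (f r hr).2.2 (Or.inl (e ▸ h0))
      · rwa [(f r hr).1 e]
    rw [List.flatMap_cons, run_append]
    refine ⟨fun r hr => (a1 r hr).trans ((f r (by omega)).1 fun e => by simp [e] at hr),
      fun r hr h0 => a2 r hr (m r hr h0), fun x hx hp => ?_,
      fun τ h1 h2 => a4 τ (fun x hx => h1 x (List.mem_cons_of_mem _ hx)) fun r hr h0 => ?_⟩
    · rcases List.mem_cons.1 hx with rfl | hx
      · exact a2 _ (by simp) ((f (1, 0) (by simp)).2.2 (Or.inr hp))
      · exact a3 x hx fun p hp' => m p (h x (List.mem_cons_of_mem _ hx) p hp') (hp p hp')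
    · by_cases e : r = (1, q.2)
      · subst e
        rcases (f _ hr).2.1 h0 with h3 | h3
        · exact h2 _ hr h3
        · exact h1 q List.mem_cons_self fun p hp => h2 p (h q List.mem_cons_self p hp) (h3 p hp)
      · exact h2 r hr ((f r hr).1 e ▸ h0)

theorem reset_spec (l : List ℕ) (R : ℕ × ℕ → ℤ) (r : ℕ × ℕ) :
    run (l.map fun c => (0, (1, c), (0, 0), (0, 0))) R r =
      if r.1 = 1 ∧ r.2 ∈ l then 0 else R r := by
  induction l generalizing R with
  | nil => simp
  | cons c l ih =>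
    rw [List.map_cons, run_cons, ih, step_apply]
    by_cases e1 : r.1 = 1 <;> by_cases e2 : r.2 = c <;> simp [e1, e2, Prod.ext_iff]

/-- Clear the variables, apply the rules, read the variable `o`. -/
def prog (L : List Rule) (o : ℕ) : List (Ins (ℕ × ℕ)) :=
  ((o :: L.flatMap fun q => q.1.map fun p => p.2).map fun c => (0, (1, c), (0, 0), (0, 0))) ++
    L.flatMap fire ++ [(5, (0, 0), (1, o), (1, o))]

theorem pt_prog {α : Type} [Enc α] {L : α → List Rule} {o : α → ℕ} (hL : PT L) (ho : PT o) :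
    PT fun a => prog (L a) (o a) := by
  unfold prog fire
  fun_prop

theorem prog_spec (L : List Rule) (o : ℕ) (h : ∀ q ∈ L, ∀ p ∈ q.1, p.1 ≠ 0) (R : ℕ × ℕ → ℤ)
    (τ : ℕ × ℕ → Prop) [Decidable (τ (1, o))] (h1 : ∀ q ∈ L, (∀ p ∈ q.1, τ p) → τ (1, q.2))
    (h2 : ∀ r, 2 ≤ r.1 → 0 < R r → τ r)
    (h3 : ∀ U : ℕ × ℕ → ℤ, (∀ r, 2 ≤ r.1 → U r = R r) → τ (1, o) →
      0 < run (L.flatMap fire) U (1, o)) :
    run (prog L o) R (0, 0) = (if τ (1, o) then 1 else 0) ∧
      ∀ r, 2 ≤ r.1 → run (prog L o) R r = R r := by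
  rw [prog, run_append, run_append]
  have k := reset_spec (o :: L.flatMap fun q => q.1.map fun p => p.2) R
  generalize run (List.map _ (o :: L.flatMap fun q => q.1.map fun p => p.2)) R = U at k
  have k2 : ∀ r : ℕ × ℕ, 2 ≤ r.1 → U r = R r := fun r hr => by
    rw [k, if_neg fun e => by omega]
  obtain ⟨a1, -, -, a4⟩ := horn_spec L h U
  refine ⟨?_, fun r hr => ?_⟩
  · have e : 0 < run (L.flatMap fire) U (1, o) ↔ τ (1, o) := ⟨fun h0 => ?_, h3 U k2⟩
    · simp [step_apply, e]
    · refine (a4 (fun r => τ r ∨ (r.1 = 1 ∧ r.2 ∉ o :: L.flatMap fun q => q.1.map fun p => p.2))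
        (fun q hq hp => Or.inl (h1 q hq fun p hp' => (hp p hp').resolve_right fun e => e.2 ?_))
        (fun r hr h0 => ?_) _ (by simp) h0).resolve_right (by simp)
      · exact List.mem_cons_of_mem _ (List.mem_flatMap.2 ⟨q, hq, List.mem_map_of_mem hp'⟩)
      · by_cases e : r.1 = 1
        · refine Or.inr ⟨e, fun e2 => ?_⟩
          rw [k, if_pos ⟨e, e2⟩] at h0
          exact lt_irrefl _ h0
        · exact Or.inl (h2 r (by omega) (k2 r (by omega) ▸ h0))
  · have : r.1 ≠ 0 := by omega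
    simp [step_apply, Prod.ext_iff, this, a1 r hr, k2 r hr]

section tableau

variable {K : Type} [DecidableEq K] {Γ : K → Type} {Λ σ : Type} (D : Dat Γ Λ σ)

/-- The registers that describe the window `c` at time `t`. -/
def premR (t : ℕ) (c : TM2.Cfg Γ Λ σ) : List (ℕ × ℕ) := (D.prem t c).map fun l => (1, l.1)

omit [DecidableEq K] in
theorem premR_iff (a : ℕ × ℕ → Prop) (t : ℕ) (c : TM2.Cfg Γ Λ σ) :
    (∀ p ∈ premR D t c, a p) ↔ D.Prem (fun t i s => a (1, D.var t i s)) t c := by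
  simp only [premR, Dat.prem, Dat.Prem, List.forall_mem_cons, List.forall_mem_map,
    List.forall_mem_flatMap, List.mem_range, D.hKL, true_imp_iff, List.map_cons]

/-- The rules of the first row. -/
def initR (n B : ℕ) (lit : ℕ → Bool → ℕ × ℕ) : List Rule :=
  [([], D.var 0 0 (.inl (some D.main, D.v₀)))] ++
  (D.KL.filter fun k => decide (k ≠ D.k₀)).flatMap
    (fun k => (List.range B).map fun i => ([], D.var 0 i (.inr ⟨k, none⟩))) ++
  (List.range n).flatMap (fun i => [([lit i true], D.var 0 i (D.s0 (some true))),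
    ([lit i false], D.var 0 i (D.s0 (some false)))]) ++
  (List.range B).map fun i => ([], D.var 0 (n + i) (D.s0 none))

/-- The rules of one step. -/
def stepR (B t : ℕ) (c : TM2.Cfg Γ Λ σ) : List Rule :=
  [(premR D t c, D.var (t + 1) 0 (Dat.ctl (nxt D.m c)))] ++
  D.KL.flatMap (fun k => (List.range ((nxt D.m c).stk k).length).map
    fun i => (premR D t c, D.var (t + 1) i (Dat.cell (nxt D.m c) k i))) ++
  D.OL.flatMap fun s => (List.range B).map fun i => ((1, D.var t (D.d + i) (.inr s)) :: premR D t c,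
    D.var (t + 1) (((nxt D.m c).stk s.1).length + i) (.inr s))

/-- All rules. -/
def rules (n T B : ℕ) (lit : ℕ → Bool → ℕ × ℕ) : List Rule :=
  initR D n B lit ++ (List.range T).flatMap fun t => D.TL.flatMap (stepR D B t)

theorem pt_rules {α : Type} [Enc α] {n T B : α → ℕ} {lit : α → ℕ → Bool → ℕ × ℕ} (hn : PT n)
    (hT : PT T) (hB : PT B) (hl : ∀ b, PT fun p : α × ℕ => lit p.1 p.2 b) :
    PT fun a => rules D (n a) (T a) (B a) (lit a) := by
  have h1 := hl true
  have h2 := hl false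
  have h3 : ∀ c, PT fun p : α × ℕ => stepR D (B p.1) p.2 c := fun c => by
    unfold stepR premR
    exact PT.append (PT.append (by fun_prop) (PT.flatMap_const _ (fun k =>
      PT.map_const _ (fun i => by fun_prop)))) (PT.flatMap_const _ (fun s => by fun_prop))
  unfold rules initR
  exact PT.append (PT.append (PT.append (PT.append (by fun_prop)
    (PT.flatMap_const _ (fun k => by fun_prop))) (by fun_prop)) (by fun_prop))
    (PT.flatMap (PT.flatMap_const _ h3) (by fun_prop))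

theorem forall_initR {n B : ℕ} {lit : ℕ → Bool → ℕ × ℕ} {X : Rule → Prop} :
    (∀ q ∈ initR D n B lit, X q) ↔ X ([], D.var 0 0 (.inl (some D.main, D.v₀))) ∧
      (∀ k, k ≠ D.k₀ → ∀ i < B, X ([], D.var 0 i (.inr ⟨k, none⟩))) ∧
      (∀ i < n, ∀ b, X ([lit i b], D.var 0 i (D.s0 (some b)))) ∧
      ∀ i < B, X ([], D.var 0 (n + i) (D.s0 none)) := by
  simp only [initR, List.forall_mem_append, List.forall_mem_flatMap, List.forall_mem_map,
    List.forall_mem_cons, List.mem_range, List.mem_filter, D.hKL, true_and, decide_eq_true_eq,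
    List.not_mem_nil, false_imp_iff, implies_true, and_true, Bool.forall_bool, and_assoc]
  exact and_congr Iff.rfl (and_congr Iff.rfl (and_congr (forall₂_congr fun _ _ => and_comm) Iff.rfl))

theorem forall_stepR {B t : ℕ} {c : TM2.Cfg Γ Λ σ} {X : Rule → Prop} :
    (∀ q ∈ stepR D B t c, X q) ↔ X (premR D t c, D.var (t + 1) 0 (Dat.ctl (nxt D.m c))) ∧
      (∀ k, ∀ i < ((nxt D.m c).stk k).length,
        X (premR D t c, D.var (t + 1) i (Dat.cell (nxt D.m c) k i))) ∧
      ∀ s ∈ D.OL, ∀ i < B, X ((1, D.var t (D.d + i) (.inr s)) :: premR D t c,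
        D.var (t + 1) (((nxt D.m c).stk s.1).length + i) (.inr s)) := by
  simp only [stepR, List.forall_mem_append, List.forall_mem_flatMap, List.forall_mem_map,
    List.forall_mem_cons, List.mem_range, D.hKL, true_imp_iff, List.not_mem_nil, false_imp_iff,
    implies_true, and_true, and_assoc]

theorem rules_sound (s : List Bool) (T B : ℕ) (lit : ℕ → Bool → ℕ × ℕ) (τ : ℕ × ℕ → Prop)
    (hV : ∀ t i x, Good D.A x → (τ (1, D.var t i x) ↔ Holds ((nxt D.m)^[t] (D.c0 s)) i x))
    (hl : ∀ i < s.length, ∀ b, τ (lit i b) → s[i]? = some b) :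
    ∀ q ∈ rules D s.length T B lit, (∀ p ∈ q.1, τ p) → τ (1, q.2) := by
  have h0 : ∀ i o, s[i]? = o → τ (1, D.var 0 i (D.s0 o)) := by
    intro i o e
    rw [hV _ _ _ (D.good_s0 o)]
    simp only [Holds, Dat.s0, Dat.c0, Function.iterate_zero, id, Function.update_self,
      List.getElem?_map, e]
  have hprem : ∀ t, ∀ c ∈ D.TL, (∀ p ∈ premR D t c, τ p) →
      c = win D.d ((nxt D.m)^[t] (D.c0 s)) := by
    intro t c hc hp
    rw [premR_iff] at hp
    obtain ⟨hlen, hover⟩ := (D.hTL c).1 hc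
    have e1 := (hV _ _ (Dat.ctl _) trivial).1 hp.1
    have e2 := fun k i hi => (hV _ _ _ (D.good_cell hover k i)).1 (hp.2 k i hi)
    obtain ⟨l, v, S⟩ := c
    simp only [Dat.ctl, Holds, Prod.mk.injEq, Dat.cell] at e1 e2 hlen
    simp only [win, TM2.Cfg.mk.injEq]
    refine ⟨e1.1.symm, e1.2.symm, funext fun k => List.ext_getElem? fun i => ?_⟩
    by_cases hi : i < D.d
    · rw [List.getElem?_take, if_pos hi, e2 k i hi]
    · rw [List.getElem?_take, if_neg hi, List.getElem?_eq_none ((hlen k).trans (not_lt.1 hi))]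
  rw [rules, List.forall_mem_append, forall_initR]
  simp only [List.forall_mem_flatMap, forall_stepR]
  refine ⟨⟨fun _ => (hV _ _ (.inl _) trivial).2 rfl, fun k hk i _ _ => ?_,
    fun i hi b h => h0 _ _ (hl i hi b (h _ List.mem_cons_self)),
    fun i _ _ => h0 _ _ (List.getElem?_eq_none (Nat.le_add_right _ _))⟩,
    fun t _ c hc => ⟨fun hp => ?_, fun k i hi hp => ?_, fun x hx i _ hp => ?_⟩⟩
  · rw [hV _ _ _ (by intro γ hγ; cases hγ)]
    simp [Holds, Dat.c0, Function.update_of_ne hk]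
  · rw [hprem t c hc hp, ← Dat.ctl_nxt, hV _ _ (Dat.ctl _) trivial, Function.iterate_succ_apply']
    rfl
  · rw [hprem t c hc hp] at hi ⊢
    rw [← D.cell_nxt_lt _ k hi, ← Function.iterate_succ_apply' (nxt D.m),
      hV _ _ _ (D.good_cell (D.over_iter _ _) k i)]
    rfl
  · have hs' := hp _ List.mem_cons_self
    rw [hV _ _ _ ((D.hOL x).1 hx)] at hs' ⊢
    rw [hprem t c hc fun p h => hp p (List.mem_cons_of_mem _ h), Function.iterate_succ_apply']
    simp only [Holds] at hs' ⊢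
    rw [D.stk_nxt_ge, hs']

theorem stepR_ne (B t : ℕ) : ∀ q ∈ D.TL.flatMap (stepR D B t), ∀ p ∈ q.1, p.1 ≠ 0 := by
  have h : ∀ c, ∀ p ∈ premR D t c, p.1 ≠ 0 := fun c => by simp [premR]
  simp only [List.forall_mem_flatMap, forall_stepR, List.forall_mem_cons]
  exact fun c _ => ⟨h c, fun _ _ _ => h c, fun _ _ _ _ => ⟨one_ne_zero, h c⟩⟩

theorem initR_ne (n B : ℕ) {lit : ℕ → Bool → ℕ × ℕ} (h : ∀ i b, 2 ≤ (lit i b).1) :
    ∀ q ∈ initR D n B lit, ∀ p ∈ q.1, p.1 ≠ 0 := by
  rw [forall_initR]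
  refine ⟨by simp, by simp, fun i _ b p hp => ?_, by simp⟩
  have := h i b
  rw [List.mem_singleton.1 hp]
  omega

theorem rules_complete (s : List Bool) {T B : ℕ} (hB : D.d * T < B) {lit : ℕ → Bool → ℕ × ℕ}
    (h : ∀ i b, 2 ≤ (lit i b).1) (U : ℕ × ℕ → ℤ)
    (hl : ∀ i (hi : i < s.length), 0 < U (lit i s[i])) :
    0 < run ((rules D s.length T B lit).flatMap fire) U
      (1, D.var T 0 (Dat.cell ((nxt D.m)^[T] (D.c0 s)) D.k₁ 0)) := by
  rw [rules, List.flatMap_append, run_append, List.flatMap_assoc]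
  refine (run_range (fun t => (D.TL.flatMap (stepR D B t)).flatMap fire)
    (fun t S => 0 < S (1, D.var t 0 (Dat.ctl ((nxt D.m)^[t] (D.c0 s)))) ∧ ∀ k i, i + D.d * t < B →
      0 < S (1, D.var t i (Dat.cell ((nxt D.m)^[t] (D.c0 s)) k i))) T _ ?_ ?_).2 _ 0 (by omega)
  · obtain ⟨a1, a2, a3, a4⟩ := (forall_initR D).1 (horn_spec _ (initR_ne D s.length B h) U).2.2.1
    refine ⟨a1 (by simp), fun k i hi => ?_⟩
    simp only [Function.iterate_zero, id]
    by_cases hk : k = D.k₀
    · subst hk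
      rw [Dat.cell_c0]
      by_cases e : i < s.length
      · rw [List.getElem?_eq_getElem e]
        exact a3 i e _ (by simpa using hl i e)
      · obtain ⟨j, rfl⟩ := Nat.exists_eq_add_of_le (not_lt.1 e)
        rw [List.getElem?_eq_none (Nat.le_add_right _ _)]
        exact a4 j (by omega) (by simp)
    · rw [D.cell_c0_ne _ hk]
      exact a2 k hk i (by omega) (by simp)
  · rintro t ht S ⟨h1, h2⟩
    rw [Function.iterate_succ_apply']
    have hc := D.over_iter s t
    generalize (nxt D.m)^[t] (D.c0 s) = c at h1 h2 hc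
    have hdt : D.d * (t + 1) ≤ D.d * T := Nat.mul_le_mul_left _ ht
    rw [Nat.mul_succ] at hdt
    have hp : ∀ p ∈ premR D t (win D.d c), 0 < S p := (premR_iff D (fun p => 0 < S p) t _).2
      ⟨h1, fun k i hi => by rw [D.cell_win c k hi]; exact h2 k i (by omega)⟩
    obtain ⟨a1, a2, a3⟩ := (forall_stepR D).1 (List.forall_mem_flatMap.1
      (horn_spec _ (stepR_ne D B t) S).2.2.1 _ (D.win_mem hc))
    refine ⟨by rw [Dat.ctl_nxt]; exact a1 hp, fun k i hi => ?_⟩
    rw [Nat.mul_succ] at hi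
    by_cases hlt : i < ((nxt D.m (win D.d c)).stk k).length
    · rw [D.cell_nxt_lt c k hlt]
      exact a2 k i hlt hp
    · obtain ⟨j, rfl⟩ := Nat.exists_eq_add_of_le (not_lt.1 hlt)
      have := a3 ⟨k, (c.stk k)[D.d + j]?⟩ ((D.hOL _).2 (D.good_cell hc k _)) j (by omega)
        (List.forall_mem_cons.2 ⟨h2 k _ (by omega), hp⟩)
      simpa only [Dat.cell, D.stk_nxt_ge] using this

open Classical in
theorem dat_spec (s : List Bool) {T B : ℕ} (hB : D.d * T < B) {lit : ℕ → Bool → ℕ × ℕ}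
    (h : ∀ i b, 2 ≤ (lit i b).1) (R : ℕ × ℕ → ℤ)
    (hl : ∀ i (hi : i < s.length) b, 0 < R (lit i b) ↔ s[i] = b) :
    run (prog (rules D s.length T B lit) (D.var T 0 (.inr ⟨D.k₁, some D.bad⟩))) R (0, 0) =
      (if (((nxt D.m)^[T] (D.c0 s)).stk D.k₁)[0]? = some D.bad then 1 else 0) ∧
    ∀ r, 2 ≤ r.1 →
      run (prog (rules D s.length T B lit) (D.var T 0 (.inr ⟨D.k₁, some D.bad⟩))) R r = R r := by
  let τ : ℕ × ℕ → Prop := fun r => if r.1 = 1 then ∃ x, Good D.A x ∧
    D.code x = (Nat.unpair (Nat.unpair r.2).2).2 ∧ Holds ((nxt D.m)^[(Nat.unpair r.2).1] (D.c0 s))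
      (Nat.unpair (Nat.unpair r.2).2).1 x else 0 < R r
  have hV : ∀ t i x, Good D.A x →
      (τ (1, D.var t i x) ↔ Holds ((nxt D.m)^[t] (D.c0 s)) i x) := fun t i x hx => by
    simp only [τ, Dat.var, Nat.unpair_pair, if_true]
    exact ⟨fun ⟨y, hy, he, hh⟩ => by rwa [D.hcode hy hx he] at hh, fun hh => ⟨x, hx, rfl, hh⟩⟩
  have h2 : ∀ r : ℕ × ℕ, 2 ≤ r.1 → (τ r ↔ 0 < R r) := fun r hr => by
    simp only [τ]
    rw [if_neg (by omega)]
  have ho := hV T 0 (.inr ⟨D.k₁, some D.bad⟩) (by intro γ hγ; cases hγ; exact D.hbad)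
  have := prog_spec (rules D s.length T B lit) (D.var T 0 (.inr ⟨D.k₁, some D.bad⟩))
    (List.forall_mem_append.2 ⟨initR_ne D _ _ h,
      List.forall_mem_flatMap.2 fun t _ => stepR_ne D B t⟩) R τ
    (rules_sound D s T B lit τ hV fun i hi b e => by
      rw [List.getElem?_eq_getElem hi, (hl i hi b).1 ((h2 _ (h i b)).1 e)])
    (fun r hr => (h2 r hr).2) fun U hU e => by
      have := rules_complete D s hB h U fun i hi => by
        rw [hU _ (h _ _)]
        exact (hl i hi _).2 rfl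
      rwa [Dat.cell, show (((nxt D.m)^[T] (D.c0 s)).stk D.k₁)[0]? = some D.bad from ho.1 e] at this
  refine ⟨this.1.trans ?_, this.2⟩
  exact if_congr ho rfl rfl

end tableau

/-- The registers of the classes two and three hold the bits of `w` and their negations. -/
def Inp (w : List Bool) (R : ℕ × ℕ → ℤ) : Prop :=
  0 < R (2, 0) ∧ ¬ 0 < R (3, 0) ∧ ∀ r b, w[r]? = some b →
    (0 < R (2, r + 1) ↔ b = true) ∧ (0 < R (3, r + 1) ↔ b = false)

/-- The register that tells whether bit `i` of the input is `b`. -/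
def lit (u : List Bool) (i : ℕ) (b : Bool) : ℕ × ℕ :=
  if i < u.length then (if u.getD i false = b then (2, 0) else (3, 0))
  else if (i - u.length) % 3 = 1 then (if b = true then 2 else 3, (i - u.length) / 3 + 1)
  else if decide ((i - u.length) % 3 = 0) = b then (2, 0) else (3, 0)

theorem lit_ge (u : List Bool) (i : ℕ) (b : Bool) : 2 ≤ (lit u i b).1 := by
  unfold lit
  split_ifs <;> simp

theorem lit_spec {u w : List Bool} {R : ℕ × ℕ → ℤ} (h : Inp w R) (i : ℕ)
    (hi : i < (u ++ enc w).length) (b : Bool) : 0 < R (lit u i b) ↔ (u ++ enc w)[i] = b := by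
  obtain ⟨h1, h2, h3⟩ := h
  have c : ∀ x : Bool, 0 < R (if x = b then (2, 0) else (3, 0)) ↔ x = b := fun x => by
    split_ifs with e
    · exact iff_of_true h1 e
    · exact iff_of_false h2 e
  rw [lit]
  by_cases e : i < u.length
  · rw [if_pos e, c, List.getElem_append_left e, List.getD_eq_getElem _ _ e]
  · rw [List.length_append, length_enc_bits] at hi
    have e1 := enc_bits_getElem? w ((i - u.length) / 3) ((i - u.length) % 3) (by omega)
    have e2 : (i - u.length) / 3 < w.length := by omega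
    obtain ⟨a1, a2⟩ := h3 _ _ (List.getElem?_eq_getElem e2)
    rw [Nat.div_add_mod, List.getElem?_eq_getElem e2,
      List.getElem?_eq_getElem (by rw [length_enc_bits]; omega), Option.map_some,
      Option.some.injEq] at e1
    rw [if_neg e, List.getElem_append_right (not_lt.1 e), e1]
    have : (i - u.length) % 3 = 0 ∨ (i - u.length) % 3 = 1 ∨ (i - u.length) % 3 = 2 := by omega
    rcases this with e3 | e3 | e3 <;> rw [e3]
    · rw [if_neg (by omega), c]
      rfl
    · cases b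
      · exact a2
      · exact a1
    · rw [if_neg (by omega), c]
      rfl

theorem exists_pred {α : Type} [Enc α] {h : α × List Bool → Bool} (hh : PT h) :
    ∃ g : α × ℕ → List (Ins (ℕ × ℕ)), PT g ∧ ∀ a w R, Inp w R →
      run (g (a, w.length)) R (0, 0) = (if h (a, w) = true then 1 else 0) ∧
      ∀ r, 2 ≤ r.1 → run (g (a, w.length)) R r = R r := by
  classical
  obtain ⟨M⟩ := hh.tm2
  obtain ⟨D, hm, hk₀, hk₁, hmain, hv, hi, hbad⟩ :=
    exists_dat M.tm M.inputAlphabet.symm (M.outputAlphabet.symm true)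
  obtain ⟨m, k₀, k₁, main, v₀, i₀, bad, d, hd, A, hA, hi', hbad', KL, hKL, TL, hTL, OL, hOL, code,
    hcode⟩ := D
  simp only at hm hk₀ hk₁ hmain hv hi hbad
  subst hm hk₀ hk₁ hmain hv
  obtain rfl := eq_of_heq hi
  obtain rfl := eq_of_heq hbad
  set D : Dat M.tm.Γ M.tm.Λ M.tm.σ := ⟨M.tm.m, M.tm.k₀, M.tm.k₁, M.tm.main, M.tm.initialState,
    M.inputAlphabet.symm, M.outputAlphabet.symm true, d, hd, A, hA, hi', hbad', KL, hKL, TL, hTL,
    OL, hOL, code, hcode⟩ with hD
  let u : α → List Bool := fun x => enc (x, ([] : List Bool))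
  let n : α × ℕ → ℕ := fun p => (u p.1).length + 3 * p.2
  let T : α × ℕ → ℕ := fun p => M.time.eval (n p)
  have hu : PT u := by fun_prop
  have hn : PT n := by fun_prop
  have hT : PT T := by fun_prop
  refine ⟨fun p => prog (rules D (n p) (T p) (d * T p + 1) (lit (u p.1)))
    (D.var (T p) 0 (.inr ⟨D.k₁, some D.bad⟩)), pt_prog (pt_rules D hn hT (by fun_prop)
      fun b => by unfold lit; fun_prop) (by fun_prop), fun x w R hR => ?_⟩
  have hl : n (x, w.length) = (u x ++ enc w).length := by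
    rw [List.length_append, length_enc_bits]
  have := dat_spec D (u x ++ enc w) (T := T (x, w.length)) (Nat.lt_succ_self _) (lit_ge (u x)) R
    (lit_spec hR)
  rw [← hl] at this
  refine ⟨this.1.trans (if_congr ?_ rfl rfl), this.2⟩
  have hxw : u x ++ enc w = enc (x, w) := by simp [u, enc_prod, enc_nil]
  obtain ⟨⟨k, hk⟩, hk'⟩ := M.outputsFun (x, w)
  simp only at hk'
  have h1 := nxt_iter_of_steps M.tm.m k _ _ hk
  have h2 : D.c0 (u x ++ enc w) =
      initList M.tm (List.map M.inputAlphabet.invFun (enc (x, w))) := by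
    rw [hxw]
    simp only [Dat.c0, initList, hD]
    congr 1
    funext k
    by_cases hk : k = M.tm.k₀
    · subst hk
      rw [dif_pos rfl]
      exact Function.update_self (β := fun k => List (M.tm.Γ k)) ..
    · rw [dif_neg hk]
      exact Function.update_of_ne (β := fun k => List (M.tm.Γ k)) hk _ _
  have h3 : k ≤ T (x, w.length) := hk'.trans (eval_mono _ (by rw [← hxw, hl]))
  obtain ⟨e, he⟩ := Nat.exists_eq_add_of_le h3
  rw [h2, he, add_comm, Function.iterate_add_apply]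
  change (((nxt M.tm.m)^[e] ((nxt M.tm.m)^[k] _)).stk M.tm.k₁)[0]? =
    some (M.outputAlphabet.symm true) ↔ _
  rw [h1, nxt_iter_halt _ rfl]
  simp only [haltList, enc_bool]
  cases h (x, w) <;> simp

end Pool.Agent.MP_7d676c_m
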