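import Pool.Agent.MP_7d676c_m.Sign
import Pool.Agent.MP_7d676c_m.Horn

/-! Computations with an oracle for PosSLP as register programs with sign instructions. -/

namespace Pool.Agent.MP_7d676c_m

open Turing Pool.Agent.MP_2e8011_lc Pool.Agent.MP_a6d740_lc Pool.Agent.MP_b0ee3d_lc
open Pool.Agent.MP_7d676c_lc

section
variable {K : Type} [DecidableEq K] {Γ : K → Type} {Λ σ : Type}

lemma length_stepAux (q : TM2.Stmt Γ Λ σ) : ∀ (v : σ) (S : ∀ k, List (Γ k)) (k : K),
    ((TM2.stepAux q v S).stk k).length ≤ (S k).length + depth q := by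
  induction q with
  | push j f q ih =>
    intro v S k
    refine (ih _ _ k).trans ?_
    by_cases h : k = j
    · subst h; simp [depth]; omega
    · simp [depth, h]
  | peek j f q ih => intro v S k; exact (ih _ _ k).trans (by simp [depth])
  | pop j f q ih =>
    intro v S k
    refine (ih _ _ k).trans ?_
    by_cases h : k = j
    · subst h; simp [depth]; omega
    · simp [depth, h]
  | load f q ih => intro v S k; exact ih _ _ k
  | branch f q₁ q₂ ih₁ ih₂ =>
    intro v S k
    simp only [TM2.stepAux, depth]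
    cases f v
    · exact (ih₂ _ _ k).trans (by simp)
    · exact (ih₁ _ _ k).trans (by simp)
  | goto f => intro v S k; simp [TM2.stepAux]
  | halt => intro v S k; simp [TM2.stepAux]

lemma length_nxt_iter {m : Λ → TM2.Stmt Γ Λ σ} {d : ℕ} (hd : ∀ l, depth (m l) ≤ d)
    (c : TM2.Cfg Γ Λ σ) (k : K) (n : ℕ) :
    (((nxt m)^[n] c).stk k).length ≤ (c.stk k).length + n * d := by
  induction n with
  | zero => simp
  | succ n ih =>
    rw [Function.iterate_succ_apply']
    generalize (nxt m)^[n] c = c' at ih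
    unfold nxt
    split
    · nlinarith
    · rename_i l _
      have := length_stepAux (m l) c'.var c'.stk k
      have := hd l
      nlinarith

/-- Code of a configuration. -/
def ccode (KL : List K) (cc : Option Λ × σ → ℕ) (cs : (Σ k, Γ k) → ℕ) (c : TM2.Cfg Γ Λ σ) :
    ℕ × List (List ℕ) :=
  (cc (c.l, c.var), KL.map fun k => (c.stk k).map fun γ => cs ⟨k, γ⟩)

omit [DecidableEq K] in
lemma ccode_inj {KL : List K} (hKL : ∀ k, k ∈ KL) {cc : Option Λ × σ → ℕ} (hcc : Function.Injective cc)
    {cs : (Σ k, Γ k) → ℕ} {A : Set (Σ k, Γ k)} (hcs : Set.InjOn cs A) {c c' : TM2.Cfg Γ Λ σ}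
    (h : Over A c.stk) (h' : Over A c'.stk) (e : ccode KL cc cs c = ccode KL cc cs c') : c = c' := by
  obtain ⟨l, v, S⟩ := c
  obtain ⟨l', v', S'⟩ := c'
  simp only [ccode, Prod.mk.injEq, List.map_inj_left] at e
  obtain ⟨rfl, rfl⟩ := Prod.mk.inj (hcc e.1)
  congr 1
  funext k
  have e2 := e.2 k (hKL k)
  have h1 := h k
  have h2 := h' k
  simp only at h1 h2
  generalize S k = a at *
  generalize S' k = b at *
  induction a generalizing b with
  | nil => cases b <;> simp_all
  | cons x a ih =>
    cases b with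
    | nil => simp at e2
    | cons y b =>
      simp only [List.map_cons, List.cons.injEq] at e2
      have := hcs (h1 x List.mem_cons_self) (h2 y List.mem_cons_self) e2.1
      obtain rfl : x = y := by simpa using this
      rw [ih (fun γ hγ => h1 γ (List.mem_cons_of_mem _ hγ)) b
        (fun γ hγ => h2 γ (List.mem_cons_of_mem _ hγ)) e2.2]

/-- One step on codes, by table lookup. -/
def cstep (T : List ((ℕ × List (List ℕ)) × (ℕ × List (List ℕ)))) (n d : ℕ) (x : ℕ × List (List ℕ)) :
    ℕ × List (List ℕ) :=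
  (((T.filter fun e => decide (e.1 = (x.1, x.2.map (List.take d)))).headD default).2.1,
    (List.range n).map fun j =>
      ((T.filter fun e => decide (e.1 = (x.1, x.2.map (List.take d)))).headD default).2.2.getD j []
        ++ (x.2.getD j []).drop d)

lemma pt_cstep (T : List ((ℕ × List (List ℕ)) × (ℕ × List (List ℕ)))) (n d : ℕ) :
    PT (cstep T n d) := by
  have h0 : PT fun x : ℕ × List (List ℕ) => x.2.map (List.take d) :=
    PT.map (f := fun _ l => List.take d l) (by fun_prop) (by fun_prop)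
  have h1 : PT fun x : ℕ × List (List ℕ) =>
      ((T.filter fun e => decide (e.1 = (x.1, x.2.map (List.take d)))).headD default).2 := by
    refine PT.snd (PT.headD (PT.filter (PT.eq (by fun_prop) (PT.prodMk (by fun_prop) ?_))
      (PT.const _)) (PT.const _))
    exact h0.comp (f := fun p : (ℕ × List (List ℕ)) × _ => p.1) (by fun_prop)
  unfold cstep
  refine PT.prodMk h1.fst (PT.map (PT.append (PT.getD ?_ (by fun_prop) (by fun_prop)) (by fun_prop))
    (by fun_prop))
  exact h1.snd.comp (f := fun p : (ℕ × List (List ℕ)) × ℕ => p.1) (by fun_prop)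

lemma cstep_ccode {KL : List K} (hKL : ∀ k, k ∈ KL) {cc : Option Λ × σ → ℕ}
    (hcc : Function.Injective cc) {cs : (Σ k, Γ k) → ℕ} {A : Set (Σ k, Γ k)} (hcs : Set.InjOn cs A)
    {m : Λ → TM2.Stmt Γ Λ σ} {d : ℕ} (hd : ∀ l, depth (m l) ≤ d) {TL : List (TM2.Cfg Γ Λ σ)}
    (hTL : ∀ c, c ∈ TL ↔ (∀ k, (c.stk k).length ≤ d) ∧ Over A c.stk) {c : TM2.Cfg Γ Λ σ}
    (h : Over A c.stk) :
    cstep (TL.map fun w => (ccode KL cc cs w, ccode KL cc cs (nxt m w))) KL.length d
      (ccode KL cc cs c) = ccode KL cc cs (nxt m c) := by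
  have hw : win d c ∈ TL := (hTL _).2 ⟨fun k => by simp [win], fun k γ hγ =>
    h k γ (List.mem_of_mem_take hγ)⟩
  have e1 : ((ccode KL cc cs c).1, (ccode KL cc cs c).2.map (List.take d)) =
      ccode KL cc cs (win d c) := by
    simp [ccode, win, List.map_take]
  have e2 : (((TL.map fun w => (ccode KL cc cs w, ccode KL cc cs (nxt m w))).filter
      fun e => decide (e.1 = ccode KL cc cs (win d c))).headD default).2 =
      ccode KL cc cs (nxt m (win d c)) := by
    have a1 : ∀ e ∈ (TL.map fun w => (ccode KL cc cs w, ccode KL cc cs (nxt m w))).filter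
        fun e => decide (e.1 = ccode KL cc cs (win d c)), e.2 = ccode KL cc cs (nxt m (win d c)) := by
      intro e he
      simp only [List.mem_filter, List.mem_map, decide_eq_true_eq] at he
      obtain ⟨⟨w, hw', rfl⟩, he⟩ := he
      rw [ccode_inj hKL hcc hcs ((hTL _).1 hw').2 ((hTL _).1 hw).2 he]
    have a2 : (ccode KL cc cs (win d c), ccode KL cc cs (nxt m (win d c))) ∈
        (TL.map fun w => (ccode KL cc cs w, ccode KL cc cs (nxt m w))).filter
        fun e => decide (e.1 = ccode KL cc cs (win d c)) := by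
      simp only [List.mem_filter, List.mem_map, decide_eq_true_eq]
      exact ⟨⟨_, hw, rfl⟩, trivial⟩
    generalize List.filter _ _ = l at a1 a2
    cases l with
    | nil => simp at a2
    | cons a l => exact a1 a List.mem_cons_self
  unfold cstep
  rw [e1, e2, nxt_local hd c]
  simp only [ccode, Prod.mk.injEq, true_and]
  refine List.ext_getElem (by simp) fun j h1 h2 => ?_
  have hj : j < KL.length := by simpa using h1
  simp [List.getD_eq_getElem?_getD, hj, List.map_drop]

end

/-- A polynomial-time machine run on an input whose code is computed in polynomial time. -/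
theorem pt_of_machine {α A A' : Type} [Enc α] {ea : A → List Bool} {eb : A' → List Bool}
    {f : A → A'} (hf : Nonempty (TM2ComputableInPolyTime ea eb f)) {F : α → A}
    (hF : PT fun x => ea (F x)) : PT fun x => eb (f (F x)) := by
  classical
  obtain ⟨M⟩ := hf
  have := M.tm.kFin
  have := M.tm.ΛFin
  have := M.tm.σFin
  let B : Set (Σ k, M.tm.Γ k) := (⋃ l, syms (M.tm.m l)) ∪
    (Set.range (fun b => ⟨M.tm.k₀, M.inputAlphabet.symm b⟩) ∪
      Set.range (fun b => ⟨M.tm.k₁, M.outputAlphabet.symm b⟩))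
  have hA : B.Finite := (Set.finite_iUnion (fun l => syms_finite _)).union
    ((Set.finite_range _).union (Set.finite_range _))
  obtain ⟨cs, hcs⟩ := Set.countable_iff_exists_injOn.1 hA.countable
  obtain ⟨cc, hcc⟩ := exists_injective_nat (Option M.tm.Λ × M.tm.σ)
  let d := Finset.univ.sup (fun l => depth (M.tm.m l))
  have hd : ∀ l, depth (M.tm.m l) ≤ d := fun l =>
    Finset.le_sup (f := fun l => depth (M.tm.m l)) (Finset.mem_univ l)
  have hT := windows_finite (Λ := M.tm.Λ) (σ := M.tm.σ) hA d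
  let KL : List M.tm.K := Finset.univ.toList
  have hKL : ∀ k, k ∈ KL := fun k => by simp [KL]
  let TL := hT.toFinset.toList
  have hTL : ∀ c, c ∈ TL ↔ (∀ k, (c.stk k).length ≤ d) ∧ Over B c.stk := fun c => by simp [TL]
  let g := cstep (TL.map fun w => (ccode KL cc cs w, ccode KL cc cs (nxt M.tm.m w))) KL.length d
  have hm : ∀ l, syms (M.tm.m l) ⊆ B := fun l x hx => Or.inl (Set.mem_iUnion.2 ⟨l, hx⟩)
  let c0 : α → TM2.Cfg M.tm.Γ M.tm.Λ M.tm.σ := fun x =>
    initList M.tm (List.map M.inputAlphabet.invFun (ea (F x)))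
  have hstk : ∀ x k, (((c0 x).stk k).map fun γ => cs ⟨k, γ⟩) =
      if k = M.tm.k₀ then (ea (F x)).map fun b => cs ⟨M.tm.k₀, M.inputAlphabet.symm b⟩ else [] := by
    intro x k
    by_cases hk : k = M.tm.k₀
    · subst hk
      simp [c0, initList]
    · simp [c0, initList, hk]
  have hover0 : ∀ x, Over B (c0 x).stk := by
    intro x k γ hγ
    by_cases hk : k = M.tm.k₀
    · subst hk
      simp only [c0, initList, dif_pos, List.mem_map] at hγ
      obtain ⟨b, -, rfl⟩ := List.mem_map.1 hγ
      exact Or.inr (Or.inl ⟨b, rfl⟩)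
    · simp [c0, initList, hk] at hγ
  have hover : ∀ x n, Over B ((nxt M.tm.m)^[n] (c0 x)).stk := by
    intro x n
    induction n with
    | zero => exact hover0 x
    | succ n ih => rw [Function.iterate_succ_apply']; exact over_nxt hm ih
  have hiter : ∀ x n, g^[n] (ccode KL cc cs (c0 x)) = ccode KL cc cs ((nxt M.tm.m)^[n] (c0 x)) := by
    intro x n
    induction n with
    | zero => rfl
    | succ n ih =>
      rw [Function.iterate_succ_apply', Function.iterate_succ_apply', ih]
      exact cstep_ccode hKL hcc hcs hd hTL (hover x n)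
  have hs : PT fun x : α => ccode KL cc cs (c0 x) := by
    have h1 : PT fun x : α => (ea (F x)).map fun b => cs ⟨M.tm.k₀, M.inputAlphabet.symm b⟩ :=
      PT.map (f := fun _ b => cs ⟨M.tm.k₀, M.inputAlphabet.symm b⟩)
        (PT.bool_cases (p := fun p : α × Bool => p.2) (by fun_prop)
          (g := fun b _ => cs ⟨M.tm.k₀, M.inputAlphabet.symm b⟩) fun b => PT.const _) hF
    simp only [ccode, hstk]
    refine PT.prodMk (PT.const (cc (some M.tm.main, M.tm.initialState))) (PT.map_const KL fun k => ?_)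
    split_ifs
    · exact h1
    · exact PT.const _
  let T : α → ℕ := fun x => M.time.eval (ea (F x)).length
  have hT' : PT T := PT.eval _ hF.length
  obtain ⟨C, hC⟩ : ∃ C, (∀ q, cc q ≤ C) ∧ ∀ s ∈ B, cs s ≤ C := by
    obtain ⟨C1, h1⟩ := (Set.finite_range cc).bddAbove
    obtain ⟨C2, h2⟩ := (hA.image cs).bddAbove
    exact ⟨C1 + C2, fun q => le_add_right (h1 ⟨q, rfl⟩), fun s hs => le_add_left (h2 ⟨s, hs, rfl⟩)⟩
  have hrun : PT fun x => g^[T x] (ccode KL cc cs (c0 x)) := by
    refine PT.iter (pt_cstep _ _ _) hT' hs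
      (B := fun x => 2 * C + 1 + KL.length * (2 * (((ea (F x)).length + T x * d) * (2 * C + 1)) + 1))
      (PT.pb (by have := hF.length; fun_prop)) fun x i hi => ?_
    rw [hiter, ccode, sz_prod, sz_nat]
    refine Nat.add_le_add (by have := hC.1 (((nxt M.tm.m)^[i] (c0 x)).l, ((nxt M.tm.m)^[i] (c0 x)).var); omega) ?_
    refine (sz_le_of_forall (B := ((ea (F x)).length + T x * d) * (2 * C + 1)) fun a ha => ?_).trans (by simp)
    obtain ⟨k, -, rfl⟩ := List.mem_map.1 ha
    refine (sz_le_of_forall (B := C) fun a ha => ?_).trans (Nat.mul_le_mul_right _ ?_)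
    · obtain ⟨γ, hγ, rfl⟩ := List.mem_map.1 ha
      simpa using hC.2 _ (hover x i k γ hγ)
    · rw [List.length_map]
      refine (length_nxt_iter hd _ k i).trans (Nat.add_le_add ?_ (Nat.mul_le_mul_right _ hi))
      have := congrArg List.length (hstk x k)
      rw [List.length_map] at this
      rw [this]
      split_ifs <;> simp
  obtain ⟨j, hj, hjk⟩ := List.getElem_of_mem (hKL M.tm.k₁)
  have hout : PT fun x => ((g^[T x] (ccode KL cc cs (c0 x))).2.getD j []).map
      fun s => decide (s = cs ⟨M.tm.k₁, M.outputAlphabet.symm true⟩) :=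
    PT.map (f := fun _ s => decide (s = cs ⟨M.tm.k₁, M.outputAlphabet.symm true⟩)) (by fun_prop)
      (PT.getD hrun.snd (PT.const _) (PT.const _))
  refine PT.congr hout fun x => ?_
  simp only [hiter]
  obtain ⟨⟨n, hn⟩, hn'⟩ := M.outputsFun (F x)
  simp only at hn'
  have h1 := nxt_iter_of_steps M.tm.m n _ _ hn
  have h3 : n ≤ T x := hn'
  obtain ⟨e, he⟩ := Nat.exists_eq_add_of_le h3
  rw [he, add_comm, Function.iterate_add_apply]
  change ((ccode KL cc cs ((nxt M.tm.m)^[e] ((nxt M.tm.m)^[n] (initList M.tm _)))).2.getD j []).map _ = _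
  rw [h1, nxt_iter_halt _ rfl]
  have hne : cs ⟨M.tm.k₁, M.outputAlphabet.symm false⟩ ≠ cs ⟨M.tm.k₁, M.outputAlphabet.symm true⟩ := by
    intro h
    have := hcs (Or.inr (Or.inr ⟨false, rfl⟩)) (Or.inr (Or.inr ⟨true, rfl⟩)) h
    simp at this
  simp only [ccode, List.getD_eq_getElem?_getD, List.getElem?_map, List.getElem?_eq_getElem hj, hjk,
    Option.map_some, Option.getD_some, haltList, dif_pos, List.map_map]
  change List.map _ (List.map M.outputAlphabet.invFun (eb (f (F x)))) = _
  rw [List.map_map]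
  refine (List.map_congr_left fun b _ => ?_).trans (List.map_id _)
  cases b <;> simp [hne]

theorem Inp.of_keep {w : List Bool} {R S : ℕ × ℕ → ℤ} (h : Inp w R)
    (e : ∀ r : ℕ × ℕ, r.1 = 2 ∨ r.1 = 3 → S r = R r) : Inp w S := by
  unfold Inp
  simp only [e (2, _) (Or.inl rfl), e (3, _) (Or.inr rfl)]
  exact h

/-- The positions of the four operands of gate `g`, and of the output. -/
def idx (P : List (ℕ × ℕ × ℕ)) (g k : ℕ) : ℕ :=
  if k = 0 then (if (P.getD g (0, 0, 0)).1 = 0 then g + 1 else if (P.getD g (0, 0, 0)).1 = 1 then 0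
    else (P.getD g (0, 0, 0)).2.1 + 1)
  else if k = 1 then (if (P.getD g (0, 0, 0)).1 ≤ 3 then 0 else (P.getD g (0, 0, 0)).2.2 + 1)
  else if k = 4 then (if P.length = 0 then g + 1 else P.length)
  else if (P.getD g (0, 0, 0)).1 = k then (P.getD g (0, 0, 0)).2.2 + 1 else g + 1

section universal

variable (F : ℕ → ℕ → ℕ → List (Ins (ℕ × ℕ)))

/-- Selection of an operand. -/
def sel (g k : ℕ) : List (Ins (ℕ × ℕ)) :=
  (0, (5, k), (0, 0), (0, 0)) :: (List.range (g + 1)).flatMap fun j =>
    F g k j ++ [(4, (0, 0), (0, 0), (4, j)), (2, (5, k), (5, k), (0, 0))]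

/-- Evaluation of a gate. -/
def ev (g : ℕ) : List (Ins (ℕ × ℕ)) :=
  sel F g 0 ++ sel F g 1 ++ sel F g 2 ++ sel F g 3 ++
    [(4, (5, 0), (5, 0), (5, 1)), (2, (5, 0), (5, 0), (5, 2)), (3, (4, g + 1), (5, 0), (5, 3))]

/-- Evaluation of a query; the answer is stored as bit `i`. -/
def qry (G i : ℕ) : List (Ins (ℕ × ℕ)) :=
  (1, (4, 0), (0, 0), (0, 0)) :: (List.range G).flatMap (ev F) ++ sel F G 4 ++
    [(5, (2, i + 1), (5, 4), (5, 4)), (3, (3, i + 1), (4, 0), (2, i + 1))]

variable {F} {P : List (ℕ × ℕ × ℕ)} {w : List Bool}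
  (hF : ∀ g k j R, Inp w R → run (F g k j) R (0, 0) = (if idx P g k = j then 1 else 0) ∧
    ∀ r, 2 ≤ r.1 → run (F g k j) R r = R r)

include hF

theorem sel_spec (g k : ℕ) {R : ℕ × ℕ → ℤ} (h : Inp w R) :
    run (sel F g k) R (5, k) = (if idx P g k < g + 1 then R (4, idx P g k) else 0) ∧
      ∀ r, 2 ≤ r.1 → r ≠ (5, k) → run (sel F g k) R r = R r := by
  rw [sel, run_cons]
  refine run_range _ (fun j S => S (5, k) = (if idx P g k < j then R (4, idx P g k) else 0) ∧
    ∀ r : ℕ × ℕ, 2 ≤ r.1 → r ≠ (5, k) → S r = R r) (g + 1) _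
    ⟨by simp [step_apply], fun r _ e => by simp [step_apply, e]⟩ ?_
  rintro j - S ⟨a1, a2⟩
  obtain ⟨b1, b2⟩ := hF g k j S (h.of_keep fun r hr => a2 r (by omega) fun e => by
    simp [e] at hr)
  rw [run_append]
  generalize run (F g k j) S = U at b1 b2
  refine ⟨?_, fun r hr e => ?_⟩
  · have v : run [(4, (0, 0), (0, 0), (4, j)), (2, (5, k), (5, k), (0, 0))] U (5, k) =
        U (5, k) + U (0, 0) * U (4, j) := by simp [step_apply]
    rw [v, b1, b2 _ (by simp), b2 _ (by simp), a1, a2 _ (by simp) (by simp)]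
    rcases lt_trichotomy (idx P g k) j with e | e | e
    · rw [if_pos e, if_neg e.ne, if_pos (by omega), zero_mul, add_zero]
    · rw [if_neg (by omega), if_pos e, if_pos (by omega), one_mul, zero_add, e]
    · rw [if_neg (by omega), if_neg e.ne', if_neg (by omega), zero_mul, add_zero]
  · have : r ≠ (0, 0) := fun e => by simp [e] at hr
    simp [step_apply, e, this, b2 r hr, a2 r hr e]

theorem ev_spec (g : ℕ) {R : ℕ × ℕ → ℤ} (h : Inp w R) {V : List ℤ} (hV : V.length = g)
    (h0 : R (4, 0) = 1) (h1 : ∀ j < g, R (4, j + 1) = V.getD j 0) :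
    run (ev F g) R (4, g + 1) = gateVal V (P.getD g (0, 0, 0)) ∧
      ∀ r : ℕ × ℕ, 2 ≤ r.1 → r.1 ≤ 4 → r ≠ (4, g + 1) → run (ev F g) R r = R r := by
  have kp : ∀ k (S : ℕ × ℕ → ℤ), (∀ r : ℕ × ℕ, 2 ≤ r.1 → r.1 ≤ 4 → S r = R r) →
      run (sel F g k) S (5, k) = (if idx P g k < g + 1 then R (4, idx P g k) else 0) ∧
      (∀ r : ℕ × ℕ, 2 ≤ r.1 → r.1 ≤ 4 → run (sel F g k) S r = R r) ∧
      ∀ l, l ≠ k → run (sel F g k) S (5, l) = S (5, l) := fun k S e => by
    obtain ⟨a, b⟩ := sel_spec hF g k (h.of_keep fun r hr => e r (by omega) (by omega))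
    refine ⟨by rw [a, e _ (by simp) (by simp)], fun r r1 r2 => (b r r1 fun e => ?_).trans
      (e r r1 r2), fun l hl => b _ (by simp) (by simpa using hl)⟩
    simp [e] at r2
  obtain ⟨a0, b0, -⟩ := kp 0 R fun _ _ _ => rfl
  obtain ⟨a1, b1, c1⟩ := kp 1 _ b0
  obtain ⟨a2, b2, c2⟩ := kp 2 _ b1
  obtain ⟨a3, b3, c3⟩ := kp 3 _ b2
  rw [← c1 0 (by omega), ← c2 0 (by omega), ← c3 0 (by omega)] at a0
  rw [← c2 1 (by omega), ← c3 1 (by omega)] at a1
  rw [← c3 2 (by omega)] at a2
  rw [ev, run_append, run_append, run_append, run_append]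
  generalize run (sel F g 3) _ = U at a0 a1 a2 a3 b3
  refine ⟨?_, fun r r1 r2 e => ?_⟩
  · have v : run [(4, (5, 0), (5, 0), (5, 1)), (2, (5, 0), (5, 0), (5, 2)),
        (3, (4, g + 1), (5, 0), (5, 3))] U (4, g + 1) =
        U (5, 0) * U (5, 1) + U (5, 2) - U (5, 3) := by simp [step_apply]
    have u : ∀ j, (if j < g then R (4, j + 1) else 0) = V.getD j 0 := fun j => by
      split_ifs with e
      · exact h1 j e
      · rw [List.getD_eq_default _ _ (by omega)]
    rw [v, a0, a1, a2, a3]
    simp only [idx, gateVal]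
    generalize P.getD g (0, 0, 0) = s
    obtain ⟨o, j, k⟩ := s
    have : o = 0 ∨ o = 1 ∨ o = 2 ∨ o = 3 ∨ ∃ n, o = n + 4 := by
      by_cases e : 4 ≤ o
      · exact Or.inr (Or.inr (Or.inr (Or.inr ⟨o - 4, by omega⟩)))
      · omega
    rcases this with rfl | rfl | rfl | rfl | ⟨n, rfl⟩ <;> simp [h0, u, -List.getD_eq_getElem?_getD]
  · have : r ≠ (5, 0) := fun e => by simp [e] at r2
    simp [step_apply, e, this, b3 r r1 r2]

omit hF in
theorem vals_append (A B : List (ℕ × ℕ × ℕ)) : ∃ C, vals (A ++ B) = vals A ++ C := by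
  induction B using List.reverseRecOn with
  | nil => exact ⟨[], by simp⟩
  | append_singleton B g ih =>
    obtain ⟨C, h⟩ := ih
    exact ⟨_, by rw [← List.append_assoc, vals_concat, h, List.append_assoc]⟩

theorem qry_spec {G : ℕ} (hG : P.length ≤ G) {R : ℕ × ℕ → ℤ} (h : Inp w R) :
    Inp (w ++ [decide (0 < value P)]) (run (qry F G w.length) R) := by
  obtain ⟨a1, a2, a3⟩ := run_range (ev F) (fun g S => Inp w S ∧ S (4, 0) = 1 ∧ ∀ j < g,
    S (4, j + 1) = (vals ((List.range g).map fun i => P.getD i (0, 0, 0))).getD j 0) G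
    (step R (1, (4, 0), (0, 0), (0, 0))) ⟨h.of_keep fun r hr => by
      rw [step_apply, if_neg fun e => by simp [e] at hr], by simp [step_apply], by simp⟩ (by
      rintro g - S ⟨b1, b2, b3⟩
      have l : (vals ((List.range g).map fun i => P.getD i (0, 0, 0))).length = g := by
        simp [length_vals]
      obtain ⟨c1, c2⟩ := ev_spec hF g b1 l b2 b3
      refine ⟨b1.of_keep fun r hr => c2 r (by omega) (by omega) fun e => by simp [e] at hr,
        (c2 _ (by simp) (by simp) (by simp)).trans b2, fun j hj => ?_⟩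
      rw [List.range_succ, List.map_append, List.map_singleton, vals_concat]
      rcases (Nat.le_of_lt_succ hj).lt_or_eq with e | rfl
      · rw [c2 _ (by simp) (by simp) (by simp; omega), b3 j e, List.getD_append _ _ _ _ (by omega)]
      · rw [c1, List.getD_append_right _ _ _ _ l.le, l, Nat.sub_self, List.getD_cons_zero])
  rw [qry, List.cons_append, List.cons_append, run_cons, run_append, run_append]
  generalize run ((List.range G).flatMap (ev F)) _ = S at a1 a2 a3
  obtain ⟨b1, b2⟩ := sel_spec hF G 4 a1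
  have v : run (sel F G 4) S (5, 4) = value P := by
    rw [b1]
    simp only [idx]
    rcases P.eq_nil_or_concat' with rfl | ⟨A, g, rfl⟩
    · simp [value]
    · obtain ⟨n, rfl⟩ := Nat.exists_eq_add_of_le hG
      obtain ⟨C, e⟩ := vals_append (A ++ [g])
        (((List.range n).map fun i => (A ++ [g]).length + i).map fun i => (A ++ [g]).getD i (0, 0, 0))
      have e2 : (List.range (A ++ [g]).length).map (fun i => (A ++ [g]).getD i (0, 0, 0)) =
          A ++ [g] := List.ext_getElem (by simp) fun i h1 h2 => by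
        rw [List.getElem_map, List.getElem_range, List.getD_eq_getElem _ _ h2]
      have l : (A ++ [g]).length = A.length + 1 := by simp
      have a4 := a3 A.length (by omega)
      rw [List.range_add, List.map_append, e2, e, List.getD_append _ _ _ _ (by
        rw [length_vals]; omega), vals_concat, List.getD_append_right _ _ _ _ (length_vals A).le,
        length_vals, Nat.sub_self, List.getD_cons_zero] at a4
      change _ = (vals _).getLastD 0
      rw [vals_concat, List.getLastD_concat, ← a4, l]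
      simp
  have a4 := (b2 (4, 0) (by simp) (by simp)).trans a2
  obtain ⟨c1, c2, c3⟩ := a1.of_keep (S := run (sel F G 4) S) fun r hr =>
    b2 r (by omega) fun e => by simp [e] at hr
  generalize run (sel F G 4) S = U at v a4 c1 c2 c3
  refine ⟨by simpa [step_apply] using c1, by simpa [step_apply] using c2, fun r b hb => ?_⟩
  by_cases e : r < w.length
  · rw [List.getElem?_append_left e] at hb
    simpa [step_apply, e.ne] using c3 r b hb
  · have := (List.getElem?_eq_some_iff.1 hb).1
    rw [List.length_append, List.length_singleton] at this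
    obtain rfl : r = w.length := by omega
    rw [List.getElem?_concat_length, Option.some.injEq] at hb
    subst hb
    by_cases e2 : 0 < value P <;> simp [step_apply, v, a4, e2]

end universal

theorem many_one (t : Polynomial ℕ) {Q : List Bool × List Bool → List Bool}
    {D : List Bool × List Bool → Bool} (hQ : N68a2faeb.IsPolyTime Q) (hD : N68a2faeb.IsPolyTime D) :
    ∃ f g : List Bool → List (ℕ × ℕ × ℕ), N68a2faeb.IsPolyTime f ∧ N68a2faeb.IsPolyTime g ∧
      ∀ x, Valid (f x) ∧ Valid (g x) ∧ 0 < value (g x) ∧ |value (f x) -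
        (if D (x, answers PosSLP Q x (t.eval x.length)) = true then 1 else -1) * value (g x)| *
          2 ^ 2 ^ x.length ≤ value (g x) := by
  have ag := agree_prod (agree_list agree_bool) (agree_list agree_bool)
  unfold N68a2faeb.IsPolyTime N68a2faeb.IsPolyTimeWithEncoding at hQ hD
  rw [ag.encode_eq, (agree_list agree_bool).encode_eq] at hQ
  rw [ag.encode_eq, agree_bool.encode_eq] at hD
  obtain ⟨d, hd, ed⟩ := dec_list (α := Bool) ⟨fun l => l.headD false, by fun_prop, fun _ => rfl⟩
  have q1 : PT Q := (hd.comp (pt_of_machine hQ (PT.enc PT.id))).congr fun a => ed _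
  have q2 : PT D := ((pt_of_machine hD (PT.enc PT.id)).headD (PT.const false)).congr fun a => rfl
  obtain ⟨par, ok, hp, ho, e⟩ := exists_parse
  obtain ⟨c, hc, ec⟩ := exists_compile (ax 0)
  obtain ⟨c', hc', ec'⟩ := exists_compile (ax 2)
  obtain ⟨el, he, ee⟩ := exists_elim
  obtain ⟨p, hl⟩ := q1.pb_length
  obtain ⟨Pg, hP, p1, p2⟩ : ∃ Pg : List Bool × List Bool → List (ℕ × ℕ × ℕ), PT Pg ∧
      (∀ y, (Pg y).length ≤ (Q y).length) ∧ ∀ y, PosSLP (Q y) = decide (0 < value (Pg y)) := by
    refine ⟨fun y => bif ok (Q y) then par (Q y) else [], by fun_prop, fun y => ?_, fun y => ?_⟩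
    · have := (e (Q y)).1
      cases h : ok (Q y) <;> simp_all
    · rw [(e (Q y)).2]
      cases h : ok (Q y) <;> simp [h, value]
  obtain ⟨g, hg, eg⟩ := exists_pred (α := List Bool × ℕ × ℕ × ℕ)
    (h := fun y => decide (idx (Pg (y.1.1, y.2)) y.1.2.1 y.1.2.2.1 = y.1.2.2.2))
    (by unfold idx; fun_prop)
  obtain ⟨gD, hgD, egD⟩ := exists_pred q2
  let G : List Bool → ℕ := fun x => p.eval (6 * x.length + 1 + 3 * t.eval x.length)
  have hG : PT G := by fun_prop
  have h1 : PT fun y : (List Bool × ℕ) × ℕ × ℕ =>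
      sel (fun a k j => g ((y.1.1, a, k, j), y.1.2)) y.2.1 y.2.2 := by
    unfold sel
    fun_prop
  have h2 : PT fun y : (List Bool × ℕ) × ℕ => ev (fun a k j => g ((y.1.1, a, k, j), y.1.2)) y.2 := by
    have := fun k : ℕ => h1.comp (f := fun y : (List Bool × ℕ) × ℕ => (y.1, y.2, k)) (by fun_prop)
    exact PT.append (PT.append (PT.append (PT.append (this 0) (this 1)) (this 2)) (this 3))
      (by fun_prop)
  have h3 : PT fun y : List Bool × ℕ => qry (fun a k j => g ((y.1, a, k, j), y.2)) (G y.1) y.2 :=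
    PT.append (PT.append (PT.cons (PT.const _) (PT.flatMap h2 (by fun_prop)))
      (h1.comp (f := fun y : List Bool × ℕ => (y, G y.1, 4)) (by fun_prop))) (by fun_prop)
  have h4 : PT fun x : List Bool => ((1, (2, 0), (0, 0), (0, 0)) : Ins (ℕ × ℕ)) ::
      ((List.range (t.eval x.length)).flatMap fun i =>
        qry (fun a k j => g ((x, a, k, j), i)) (G x) i) ++ gD (x, t.eval x.length) :=
    PT.append (PT.cons (PT.const _) (PT.flatMap h3 (by fun_prop))) (by fun_prop)
  have h5 := he.comp (h4.prodMk (PT.length PT.id))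
  refine ⟨_, _, isPolyTime_code (hc.comp h5), isPolyTime_code (hc'.comp h5),
    fun x => ⟨(ec _ (ee _ _).1).1, (ec' _ (ee _ _).1).1, ?_⟩⟩
  rw [(ec _ (ee _ _).1).2, (ec' _ (ee _ _).1).2]
  refine ⟨(ee _ _).2.1, le_of_eq_of_le ?_ (ee _ _).2.2⟩
  congr 4
  rw [List.cons_append, run_cons, run_append]
  have key := run_range (fun i => qry (fun a k j => g ((x, a, k, j), i)) (G x) i)
    (fun i S => Inp (answers PosSLP Q x i) S) (t.eval x.length)
    (step 0 (1, (2, 0), (0, 0), (0, 0)))
    ⟨by simp [step_apply], by simp [step_apply], fun r b hb => by simp [answers] at hb⟩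
    fun i hi S hS => by
      have := qry_spec (F := fun a k j => g ((x, a, k, j), (answers PosSLP Q x i).length))
        (P := Pg (x, answers PosSLP Q x i)) (G := G x)
        (fun a k j R hR => by simpa using eg (x, a, k, j) _ R hR)
        ((p1 _).trans ((hl _).trans (eval_mono _ (by
          rw [sz_prod, sz_bits, sz_bits, length_answers]
          omega)))) hS
      rwa [length_answers, ← p2, ← answers_succ] at this
  have := (egD x _ _ key).1
  rw [length_answers] at this
  rw [this]
  cases D (x, answers PosSLP Q x (t.eval x.length)) <;> simp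

end Pool.Agent.MP_7d676c_m
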