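import Pool.Agent.Mg.F2e8011.G7e36c2

/-! Register programs with sign instructions, and their translation into gate lists. -/

namespace Pool.Agent.MP_7d676c_m

open Pool.Agent.MP_2e8011_lc Pool.Agent.MP_a6d740_lc Pool.Agent.MP_b0ee3d_lc
open Pool.Agent.MP_7d676c_lc

/-- An instruction: operation, target, two sources. -/
abbrev Ins (ρ : Type) := ℕ × ρ × ρ × ρ

/-- The operations: the two constants, sum, difference, product, sign test. -/
def opv (o : ℕ) (a b : ℤ) : ℤ :=
  if o = 0 then 0 else if o = 1 then 1 else if o = 2 then a + b else if o = 3 then a - b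
  else if o = 4 then a * b else if 0 < a then 1 else 0

@[simp] theorem opv0 (a b : ℤ) : opv 0 a b = 0 := rfl
@[simp] theorem opv1 (a b : ℤ) : opv 1 a b = 1 := rfl
@[simp] theorem opv2 (a b : ℤ) : opv 2 a b = a + b := rfl
@[simp] theorem opv3 (a b : ℤ) : opv 3 a b = a - b := rfl
@[simp] theorem opv4 (a b : ℤ) : opv 4 a b = a * b := rfl
@[simp] theorem opv5 (a b : ℤ) : opv 5 a b = if 0 < a then 1 else 0 := rfl

variable {ρ : Type} [DecidableEq ρ]

/-- One instruction. -/
def step (R : ρ → ℤ) (s : Ins ρ) : ρ → ℤ :=
  Function.update R s.2.1 (opv s.1 (R s.2.2.1) (R s.2.2.2))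

/-- A program. -/
def run (P : List (Ins ρ)) (R : ρ → ℤ) : ρ → ℤ := P.foldl step R

theorem step_apply (R : ρ → ℤ) (s : Ins ρ) (r : ρ) :
    step R s r = if r = s.2.1 then opv s.1 (R s.2.2.1) (R s.2.2.2) else R r :=
  Function.update_apply _ _ _ _

@[simp] theorem run_nil (R : ρ → ℤ) : run [] R = R := rfl
@[simp] theorem run_cons (s : Ins ρ) (P : List (Ins ρ)) (R : ρ → ℤ) :
    run (s :: P) R = run P (step R s) := rfl
theorem run_append (P Q : List (Ins ρ)) (R : ρ → ℤ) : run (P ++ Q) R = run Q (run P R) :=
  List.foldl_append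

theorem run_keep {P : List (Ins ρ)} {r : ρ} (h : ∀ s ∈ P, s.2.1 ≠ r) (R : ρ → ℤ) :
    run P R r = R r := by
  induction P generalizing R with
  | nil => rfl
  | cons s P ih =>
    rw [run_cons, ih (fun x hx => h x (List.mem_cons_of_mem _ hx)), step_apply,
      if_neg (h s List.mem_cons_self).symm]

/-- Loops over an initial segment, with an invariant. -/
theorem run_range (f : ℕ → List (Ins ρ)) (I : ℕ → (ρ → ℤ) → Prop) (n : ℕ) (R : ρ → ℤ)
    (h0 : I 0 R) (h : ∀ i < n, ∀ S, I i S → I (i + 1) (run (f i) S)) :
    I n (run ((List.range n).flatMap f) R) := by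
  induction n with
  | zero => exact h0
  | succ n ih =>
    rw [List.range_succ, List.flatMap_append, run_append, List.flatMap_singleton]
    exact h n (Nat.lt_succ_self n) _ (ih fun i hi => h i (Nat.lt_succ_of_lt hi))

variable [Inhabited ρ]

/-- The gate that holds the present value of a register. -/
def look (P : List (Ins ρ)) (r : ρ) : ℕ :=
  (((List.range P.length).filter fun i => decide ((P.getD i default).2.1 = r)).map
    fun i => i + 1).getLastD 0

theorem look_concat (P : List (Ins ρ)) (s : Ins ρ) (r : ρ) :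
    look (P ++ [s]) r = if s.2.1 = r then P.length + 1 else look P r := by
  have h : (List.range P.length).filter (fun i => decide (((P ++ [s]).getD i default).2.1 = r)) =
      (List.range P.length).filter fun i => decide ((P.getD i default).2.1 = r) :=
    List.filter_congr fun i hi => by rw [List.getD_append _ _ _ _ (List.mem_range.1 hi)]
  have h2 : (P ++ [s]).getD P.length default = s := by simp
  rw [look, List.length_append, List.length_singleton, List.range_succ, List.filter_append, h,
    List.filter_singleton, h2]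
  by_cases e : s.2.1 = r
  · simp [e]
  · simp [e, look]

theorem look_le (P : List (Ins ρ)) (r : ρ) : look P r ≤ P.length := by
  induction P using List.reverseRecOn with
  | nil => rfl
  | append_singleton P s ih =>
    rw [look_concat, List.length_append, List.length_singleton]
    split_ifs <;> omega

/-- The gate of an instruction. -/
def gate (Q : List (Ins ρ)) (s : Ins ρ) : ℕ × ℕ × ℕ :=
  if s.1 ≤ 1 then (s.1, 0, 0) else (s.1, look Q s.2.2.1, look Q s.2.2.2)

/-- The gates of a program. -/
def gates (P : List (Ins ρ)) : List (ℕ × ℕ × ℕ) :=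
  (0, 0, 0) :: (List.range P.length).map fun i => gate (P.take i) (P.getD i default)

theorem gates_concat (P : List (Ins ρ)) (s : Ins ρ) : gates (P ++ [s]) = gates P ++ [gate P s] := by
  rw [gates, List.length_append, List.length_singleton, List.range_succ, List.map_append, gates,
    List.cons_append]
  congr 2
  · refine List.map_congr_left fun i hi => ?_
    have := List.mem_range.1 hi
    rw [List.getD_append _ _ _ _ this, List.take_append_of_le_length this.le]
  · simp

/-- The values of all gates. -/
def vals (G : List (ℕ × ℕ × ℕ)) : List ℤ := G.foldl (fun vs g => vs ++ [gateVal vs g]) []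

theorem vals_concat (G : List (ℕ × ℕ × ℕ)) (g : ℕ × ℕ × ℕ) :
    vals (G ++ [g]) = vals G ++ [gateVal (vals G) g] := List.foldl_append

theorem length_vals (G : List (ℕ × ℕ × ℕ)) : (vals G).length = G.length := by
  induction G using List.reverseRecOn with
  | nil => rfl
  | append_singleton G g ih => simp [vals_concat, ih]

theorem valid_concat {G : List (ℕ × ℕ × ℕ)} {g : ℕ × ℕ × ℕ} (h : Valid G)
    (hg : g = (0, 0, 0) ∨ g = (1, 0, 0) ∨
      (2 ≤ g.1 ∧ g.1 ≤ 4 ∧ g.2.1 < G.length ∧ g.2.2 < G.length)) : Valid (G ++ [g]) := by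
  refine ⟨by simp, fun ⟨i, hi⟩ => ?_⟩
  simp only [Fin.getElem_fin]
  by_cases e : i < G.length
  · rw [List.getElem_append_left e]
    exact h.2 ⟨i, e⟩
  · have : i = G.length := by
      rw [List.length_append, List.length_singleton] at hi
      omega
    subst this
    simpa using hg

theorem gates_spec (P : List (Ins ρ)) (h : ∀ s ∈ P, s.1 ≤ 4) :
    (gates P).length = P.length + 1 ∧ Valid (gates P) ∧ (vals (gates P)).getD 0 0 = 0 ∧
      ∀ r, (vals (gates P)).getD (look P r) 0 = run P 0 r := by
  refine ⟨by simp [gates], ?_⟩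
  induction P using List.reverseRecOn with
  | nil => exact ⟨⟨by simp [gates], fun ⟨0, _⟩ => Or.inl rfl⟩, rfl, fun r => rfl⟩
  | append_singleton P s ih =>
    obtain ⟨a1, a2, a3⟩ := ih fun x hx => h x (List.mem_append_left _ hx)
    have a4 := h s (by simp)
    have l1 : (gates P).length = P.length + 1 := by simp [gates]
    have l2 := (length_vals (gates P)).trans l1
    have b1 := look_le P s.2.2.1
    have b2 := look_le P s.2.2.2
    rw [gates_concat, vals_concat]
    refine ⟨valid_concat a1 ?_, by rwa [List.getD_append _ _ _ _ (by omega)], fun r => ?_⟩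
    · unfold gate
      split_ifs with e
      · have : s.1 = 0 ∨ s.1 = 1 := by omega
        rcases this with e | e <;> simp [e]
      · exact Or.inr (Or.inr ⟨by omega, a4, by simp only; omega, by simp only; omega⟩)
    · rw [look_concat, run_append, run_cons, run_nil, step_apply]
      by_cases e : s.2.1 = r
      · rw [if_pos e, if_pos e.symm, ← l2, List.getD_append_right _ _ _ _ le_rfl, Nat.sub_self,
          List.getD_cons_zero, ← a3, ← a3]
        unfold gate gateVal opv
        have : s.1 = 0 ∨ s.1 = 1 ∨ s.1 = 2 ∨ s.1 = 3 ∨ s.1 = 4 := by omega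
        rcases this with e | e | e | e | e <;> simp [e]
      · have := look_le P r
        rw [if_neg e, if_neg (Ne.symm e), List.getD_append _ _ _ _ (by omega), a3]

theorem exists_compile [Enc ρ] (o : ρ) : ∃ c : List (Ins ρ) → List (ℕ × ℕ × ℕ), PT c ∧
    ∀ P, (∀ s ∈ P, s.1 ≤ 4) → Valid (c P) ∧ value (c P) = run P 0 o := by
  have h1 : PT fun p : List (Ins ρ) × ρ => look p.1 p.2 := by
    unfold look
    fun_prop
  have h2 : PT fun p : List (Ins ρ) × Ins ρ => gate p.1 p.2 := by
    unfold gate
    exact PT.ite (by fun_prop) (by fun_prop) (PT.prodMk (by fun_prop) (PT.prodMk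
      (h1.comp (f := fun p : List (Ins ρ) × Ins ρ => (p.1, p.2.2.2.1)) (by fun_prop))
      (h1.comp (f := fun p : List (Ins ρ) × Ins ρ => (p.1, p.2.2.2.2)) (by fun_prop))))
  have h3 : PT fun P : List (Ins ρ) => gates P := by
    unfold gates
    exact PT.cons (by fun_prop) (PT.map (h2.comp
      (f := fun p : List (Ins ρ) × ℕ => (p.1.take p.2, p.1.getD p.2 default)) (by fun_prop))
      (by fun_prop))
  have h4 : PT fun P : List (Ins ρ) => gates P ++ [(2, look P o, 0)] :=
    PT.append h3 (PT.cons (PT.prodMk (PT.const _) (PT.prodMk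
      (h1.comp (f := fun P : List (Ins ρ) => (P, o)) (by fun_prop)) (PT.const _))) (PT.const _))
  refine ⟨_, h4, fun P h => ?_⟩
  obtain ⟨a0, a1, a2, a3⟩ := gates_spec P h
  have a4 := look_le P o
  refine ⟨valid_concat a1 (Or.inr (Or.inr ⟨le_rfl, by simp, by simp only; omega,
    by simp only; omega⟩)), ?_⟩
  change (vals _).getLastD 0 = _
  rw [vals_concat, List.getLastD_concat, ← a3]
  change _ + (vals (gates P)).getD 0 0 = _
  rw [a2, add_zero]

theorem posSLP_code {G : List (ℕ × ℕ × ℕ)} (h : Valid G) :
    PosSLP (N487b59b3.bitEncode G) = decide (0 < value G) := by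
  rw [Bool.eq_iff_iff]
  simp only [PosSLP, decide_eq_true_eq, code_Slp]
  refine ⟨?_, fun h0 => ⟨_, rfl, h, h0⟩⟩
  rintro ⟨G', e, -, h0⟩
  have hi : Function.Injective toBin_Slp := fun a b e => by
    simpa [toBin_Slp, Prod.ext_iff] using e
  rwa [List.map_injective_iff.2 hi (Enc.inj e)] at h0

theorem isPolyTime_code {f : List Bool → List (ℕ × ℕ × ℕ)} (hf : PT f) : N68a2faeb.IsPolyTime f :=
  isPolyTime_of_PT id (List.map toBin_Slp) (agree_list agree_bool) code_Slp
    (PT.map (f := fun _ => toBin_Slp) (by unfold toBin_Slp; fun_prop) hf) fun _ => rfl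

end Pool.Agent.MP_7d676c_m
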