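import Pool.Agent.MP_7d676c_m.Reg

/-! Removal of the sign instructions: values are replaced by fractions, and the sign is
approximated by a scaled Newton iteration. -/

namespace Pool.Agent.MP_7d676c_m

open Pool.Agent.MP_2e8011_lc Pool.Agent.MP_a6d740_lc Pool.Agent.MP_b0ee3d_lc
open Pool.Agent.MP_7d676c_lc

/-- Auxiliary registers. -/
abbrev ax (n : ℕ) : ℕ × ℕ × ℕ := (0, n, 0)

/-- Registers for intermediate results. -/
def Tmp (r : ℕ × ℕ × ℕ) : Prop := r.1 = 0 ∧ r.2.1 ≤ 6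

theorem keep_tmp {P : List (Ins (ℕ × ℕ × ℕ))} (h : ∀ s ∈ P, Tmp s.2.1) (S : ℕ × ℕ × ℕ → ℤ)
    (r : ℕ × ℕ × ℕ) (hr : ¬ Tmp r) : run P S r = S r :=
  run_keep (fun s hs e => hr (by rw [← e]; exact h s hs)) S

/-- One step of the iteration with the multiplier in register `n`. -/
def newt (n : ℕ) : List (Ins (ℕ × ℕ × ℕ)) :=
  [(4, ax 3, ax n, ax 1), (4, ax 4, ax 3, ax 2), (4, ax 2, ax 2, ax 2), (4, ax 3, ax 3, ax 3),
    (2, ax 2, ax 2, ax 3), (2, ax 1, ax 4, ax 4)]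

theorem newt_tmp (n : ℕ) : ∀ s ∈ newt n, s.1 ≤ 4 ∧ Tmp s.2.1 := by simp [newt, Tmp]

theorem newt_spec (n : ℕ) (S : ℕ × ℕ × ℕ → ℤ) :
    run (newt n) S (ax 1) = 2 * S (ax n) * S (ax 1) * S (ax 2) ∧
    run (newt n) S (ax 2) = S (ax 2) ^ 2 + (S (ax n) * S (ax 1)) ^ 2 := by
  simp only [newt, run_cons, run_nil, step_apply, opv4, opv2]
  simp
  constructor <;> ring

/-- The constants are in place. -/
def Cst (K : ℕ) (S : ℕ × ℕ × ℕ → ℤ) : Prop :=
  S (ax 8) = 0 ∧ S (ax 9) = 1 ∧ ∀ k ≤ K, S (ax (10 + k)) = 2 ^ 2 ^ k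

theorem Cst.of_keep {K : ℕ} {S S' : ℕ × ℕ × ℕ → ℤ} (h : Cst K S)
    (e : ∀ n, 8 ≤ n → S' (ax n) = S (ax n)) : Cst K S' :=
  ⟨(e _ le_rfl).trans h.1, (e _ (by omega)).trans h.2.1,
    fun k hk => (e _ (by omega)).trans (h.2.2 k hk)⟩

/-- The whole iteration. -/
def iter (K J : ℕ) : List (Ins (ℕ × ℕ × ℕ)) :=
  ((List.range (K + 1)).flatMap fun i => newt (10 + (K - i))) ++
    (List.range J).flatMap fun _ => newt 9

theorem iter_tmp (K J : ℕ) : ∀ s ∈ iter K J, s.1 ≤ 4 ∧ Tmp s.2.1 := by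
  intro s hs
  simp only [iter, List.mem_append, List.mem_flatMap] at hs
  rcases hs with ⟨i, -, h⟩ | ⟨i, -, h⟩ <;> exact newt_tmp _ s h

theorem iter_spec {K J : ℕ} {S : ℕ × ℕ × ℕ → ℤ} (hS : Cst K S) {σ : ℤ} (hσ : σ ^ 2 = 1)
    (h0 : 0 < S (ax 2)) (h1 : S (ax 2) ≤ 2 ^ 2 ^ (K + 1) * (σ * S (ax 1)))
    (h2 : σ * S (ax 1) ≤ S (ax 2)) :
    0 < run (iter K J) S (ax 2) ∧ σ * run (iter K J) S (ax 1) ≤ run (iter K J) S (ax 2) ∧
      (run (iter K J) S (ax 2) - σ * run (iter K J) S (ax 1)) * 2 ^ 2 ^ J ≤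
        run (iter K J) S (ax 2) := by
  have kp : ∀ n (U : ℕ × ℕ × ℕ → ℤ), Cst K U → Cst K (run (newt n) U) := fun n U h =>
    h.of_keep fun k hk => keep_tmp (fun s hs => (newt_tmp n s hs).2) U _ fun e => by
      have := e.2
      simp only at this
      omega
  have sq : ∀ c a : ℤ, (c * a) ^ 2 = (c * (σ * a)) ^ 2 := fun c a => by
    rw [mul_pow, mul_pow, mul_pow, hσ, one_mul]
  obtain ⟨a0, a1, a2, a3⟩ := run_range (fun i => newt (10 + (K - i)))
    (fun i U => Cst K U ∧ 0 < U (ax 2) ∧ U (ax 2) ≤ 2 ^ 2 ^ (K + 1 - i) * (σ * U (ax 1)) ∧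
      σ * U (ax 1) ≤ U (ax 2)) (K + 1) S ⟨hS, h0, h1, h2⟩ (by
      rintro i hi U ⟨b0, b1, b2, b3⟩
      refine ⟨kp _ _ b0, ?_⟩
      rw [(newt_spec _ _).1, (newt_spec _ _).2, b0.2.2 _ (Nat.sub_le _ _), sq,
        show K + 1 - (i + 1) = K - i by omega]
      rw [show K + 1 - i = K - i + 1 by omega, pow_succ 2 (K - i), pow_mul] at b2
      have c0 : (0 : ℤ) < 2 ^ 2 ^ (K - i) := by positivity
      generalize (2 : ℤ) ^ 2 ^ (K - i) = c at *
      have e : σ * (2 * c * U (ax 1) * U (ax 2)) = 2 * c * (σ * U (ax 1)) * U (ax 2) := by ring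
      rw [e]
      generalize σ * U (ax 1) = a at *
      generalize U (ax 2) = b at *
      have a0 : 0 < c ^ 2 * a := b1.trans_le b2
      refine ⟨by positivity, ?_, by nlinarith [sq_nonneg (b - c * a)]⟩
      nlinarith [mul_le_mul_of_nonneg_right b2 b1.le, mul_le_mul_of_nonneg_left b3 a0.le])
  rw [iter, run_append]
  refine (run_range (fun _ => newt 9)
    (fun i U => Cst K U ∧ 0 < U (ax 2) ∧ σ * U (ax 1) ≤ U (ax 2) ∧
      (U (ax 2) - σ * U (ax 1)) * 2 ^ 2 ^ i ≤ U (ax 2)) J _ ⟨a0, a1, a3, ?_⟩ ?_).2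
  · simp only [Nat.sub_self, pow_zero, pow_one] at a2 ⊢
    linarith
  · rintro i - U ⟨b0, b1, b2, b3⟩
    refine ⟨kp _ _ b0, ?_⟩
    rw [(newt_spec _ _).1, (newt_spec _ _).2, b0.2.1, sq, pow_succ 2 i, pow_mul]
    have c0 : (0 : ℤ) < 2 ^ 2 ^ i := by positivity
    generalize (2 : ℤ) ^ 2 ^ i = c at *
    have e : σ * (2 * 1 * U (ax 1) * U (ax 2)) = 2 * (σ * U (ax 1)) * U (ax 2) := by ring
    rw [e]
    generalize σ * U (ax 1) = a at *
    generalize U (ax 2) = b at *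
    have f := pow_le_pow_left₀ (mul_nonneg (sub_nonneg.2 b2) c0.le) b3 2
    exact ⟨by positivity, by nlinarith [sq_nonneg (b - a)], by nlinarith [sq_nonneg a]⟩

/-- The operation on fractions; the result is in registers one and two. -/
def mid (K J : ℕ) (s : Ins (ℕ × ℕ)) : List (Ins (ℕ × ℕ × ℕ)) :=
  if s.1 ≤ 1 then [(s.1, ax 1, ax 8, ax 8), (1, ax 2, ax 8, ax 8)]
  else if s.1 ≤ 3 then [(4, ax 3, (1, s.2.2.1), ax 6), (4, ax 4, (1, s.2.2.2), ax 5),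
    (s.1, ax 1, ax 3, ax 4), (4, ax 2, ax 5, ax 6)]
  else if s.1 = 4 then [(4, ax 1, (1, s.2.2.1), (1, s.2.2.2)), (4, ax 2, ax 5, ax 6)]
  else [(2, ax 1, (1, s.2.2.1), (1, s.2.2.1)), (3, ax 1, ax 1, ax 5),
    (4, ax 2, ax 5, ax (10 + K))] ++ iter K J ++ [(2, ax 1, ax 1, ax 2), (2, ax 2, ax 2, ax 2)]

theorem mid_tmp (K J : ℕ) (s : Ins (ℕ × ℕ)) : ∀ x ∈ mid K J s, x.1 ≤ 4 ∧ Tmp x.2.1 := by
  unfold mid
  split_ifs with h1 h2 h3
  · simp [Tmp]; omega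
  · simp [Tmp]; omega
  · simp [Tmp]
  · intro x hx
    simp only [List.mem_append] at hx
    rcases hx with (hx | hx) | hx
    · revert x; simp [Tmp]
    · exact iter_tmp K J x hx
    · revert x; simp [Tmp]

theorem sign_spec {K J : ℕ} {S : ℕ × ℕ × ℕ → ℤ} (hS : Cst K S) (j : ℕ × ℕ) {v Z : ℤ}
    (hv : |v| ≤ Z) (hZ : 4 ≤ Z) (hW : Z ^ 2 = 2 ^ 2 ^ K) (h5 : 0 < S (ax 5))
    (h : 4 * |S (1, j) - v * S (ax 5)| ≤ S (ax 5)) (U : ℕ × ℕ × ℕ → ℤ)
    (hU : U = run ([(2, ax 1, (1, j), (1, j)), (3, ax 1, ax 1, ax 5),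
      (4, ax 2, ax 5, ax (10 + K))] ++ iter K J ++
        [(2, ax 1, ax 1, ax 2), (2, ax 2, ax 2, ax 2)]) S) :
    0 < U (ax 2) ∧ |U (ax 1) - (if 0 < v then 1 else 0) * U (ax 2)| * 2 ^ 2 ^ J ≤ U (ax 2) := by
  rw [run_append, run_append] at hU
  generalize hT : run [(2, ax 1, (1, j), (1, j)), (3, ax 1, ax 1, ax 5),
      (4, ax 2, ax 5, ax (10 + K))] S = T at hU
  have t0 : Cst K T := hS.of_keep fun n hn => by
    rw [← hT]
    exact keep_tmp (by simp [Tmp]) _ _ fun e => by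
      have := e.2
      simp only at this
      omega
  have t1 : T (ax 1) = 2 * S (1, j) - S (ax 5) := by
    rw [← hT]
    simp [step_apply]
    ring
  have t2 : T (ax 2) = S (ax 5) * Z ^ 2 := by
    have : 10 + K ≠ 1 := by omega
    rw [← hT, hW, ← hS.2.2 K le_rfl]
    simp [step_apply, this]
  have z1 : 16 ≤ Z ^ 2 := by nlinarith
  have z2 : 4 * Z ≤ Z ^ 2 := by nlinarith
  have hs : ∀ σ : ℤ, σ ^ 2 = 1 → S (ax 5) ≤ 2 * (σ * T (ax 1)) → σ * T (ax 1) ≤ 4 * Z * S (ax 5) →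
      _ := fun σ hσ a b => iter_spec (J := J) t0 hσ (by rw [t2]; positivity) (by
      rw [pow_succ 2 K, pow_mul, ← hW, t2]
      have : 0 ≤ Z ^ 2 := sq_nonneg Z
      nlinarith [mul_le_mul_of_nonneg_left a this, mul_le_mul_of_nonneg_right z1
        (mul_nonneg this (by linarith : 0 ≤ σ * T (ax 1)))])
    (by rw [t2]; nlinarith)
  have u1 : U (ax 1) = run (iter K J) T (ax 1) + run (iter K J) T (ax 2) := by
    rw [hU]
    simp [step_apply]
  have u2 : U (ax 2) = run (iter K J) T (ax 2) + run (iter K J) T (ax 2) := by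
    rw [hU]
    simp [step_apply]
  rw [u1, u2]
  obtain ⟨v1, v2⟩ := abs_le.1 hv
  have w1 := le_abs_self (S (1, j) - v * S (ax 5))
  have w2 := neg_abs_le (S (1, j) - v * S (ax 5))
  split_ifs with e
  · obtain ⟨a, b, c⟩ := hs 1 (by norm_num) (by rw [t1]; nlinarith) (by rw [t1]; nlinarith)
    rw [abs_of_nonpos (by linarith)]
    exact ⟨by linarith, by linarith⟩
  · obtain ⟨a, b, c⟩ := hs (-1) (by norm_num) (by rw [t1]; nlinarith) (by rw [t1]; nlinarith)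
    rw [abs_of_nonneg (by linarith)]
    exact ⟨by linarith, by linarith⟩

theorem mid_spec {K J : ℕ} {S : ℕ × ℕ × ℕ → ℤ} (hS : Cst K S) (s : Ins (ℕ × ℕ)) {v w Z E : ℤ}
    (hv : |v| ≤ Z) (hw : |w| ≤ Z) (hZ : 4 ≤ Z) (hW : Z ^ 2 = 2 ^ 2 ^ K) (hE : 4 ≤ E)
    (hJ : E ≤ 2 ^ 2 ^ J) (h5 : 0 < S (ax 5)) (h6 : 0 < S (ax 6))
    (h1 : |S (1, s.2.2.1) - v * S (ax 5)| * (Z ^ 2 * E) ≤ S (ax 5))
    (h2 : |S (1, s.2.2.2) - w * S (ax 6)| * (Z ^ 2 * E) ≤ S (ax 6)) :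
    0 < run (mid K J s) S (ax 2) ∧
      |run (mid K J s) S (ax 1) - opv s.1 v w * run (mid K J s) S (ax 2)| * E ≤
        run (mid K J s) S (ax 2) := by
  obtain ⟨o, d, j, k⟩ := s
  simp only at h1 h2 ⊢
  have z1 : 16 ≤ Z ^ 2 := by nlinarith
  have z2 : 4 * Z ≤ Z ^ 2 := by nlinarith
  have n1 := abs_nonneg (S (1, j) - v * S (ax 5))
  have n2 := abs_nonneg (S (1, k) - w * S (ax 6))
  have key : ∀ N : ℤ, |N| ≤ 2 * Z * (|S (1, j) - v * S (ax 5)| * S (ax 6) +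
      |S (1, k) - w * S (ax 6)| * S (ax 5)) → |N| * E ≤ S (ax 5) * S (ax 6) := fun N h => by
    have f1 := mul_le_mul_of_nonneg_right h1 h6.le
    have f2 := mul_le_mul_of_nonneg_right h2 h5.le
    have f3 := mul_le_mul_of_nonneg_right h (by linarith : 0 ≤ E)
    have f4 := mul_le_mul_of_nonneg_right z2 (by positivity : 0 ≤ E *
      (|S (1, j) - v * S (ax 5)| * S (ax 6) + |S (1, k) - w * S (ax 6)| * S (ax 5)))
    nlinarith
  have p1 : 0 ≤ |S (1, j) - v * S (ax 5)| * S (ax 6) := by positivity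
  have p2 : 0 ≤ |S (1, k) - w * S (ax 6)| * S (ax 5) := by positivity
  have : o = 0 ∨ o = 1 ∨ o = 2 ∨ o = 3 ∨ o = 4 ∨ 5 ≤ o := by omega
  rcases this with rfl | rfl | rfl | rfl | rfl | h
  · simp [mid, step_apply]
  · simp [mid, step_apply]
  · simp [mid, step_apply]
    refine ⟨by positivity, key _ ?_⟩
    rw [show S (1, j) * S (ax 6) + S (1, k) * S (ax 5) - (v + w) * (S (ax 5) * S (ax 6)) =
      (S (1, j) - v * S (ax 5)) * S (ax 6) + (S (1, k) - w * S (ax 6)) * S (ax 5) by ring]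
    refine (abs_add_le _ _).trans ?_
    rw [abs_mul, abs_mul, abs_of_pos h5, abs_of_pos h6]
    nlinarith
  · simp [mid, step_apply]
    refine ⟨by positivity, key _ ?_⟩
    rw [show S (1, j) * S (ax 6) - S (1, k) * S (ax 5) - (v - w) * (S (ax 5) * S (ax 6)) =
      (S (1, j) - v * S (ax 5)) * S (ax 6) - (S (1, k) - w * S (ax 6)) * S (ax 5) by ring]
    refine (abs_sub _ _).trans ?_
    rw [abs_mul, abs_mul, abs_of_pos h5, abs_of_pos h6]
    nlinarith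
  · simp [mid, step_apply]
    refine ⟨by positivity, key _ ?_⟩
    rw [show S (1, j) * S (1, k) - v * w * (S (ax 5) * S (ax 6)) =
      (S (1, j) - v * S (ax 5)) * ((S (1, k) - w * S (ax 6)) + w * S (ax 6)) +
        (S (1, k) - w * S (ax 6)) * (v * S (ax 5)) by ring]
    refine (abs_add_le _ _).trans ?_
    have q1 : |S (1, k) - w * S (ax 6) + w * S (ax 6)| ≤ 2 * Z * S (ax 6) := by
      refine (abs_add_le _ _).trans ?_
      rw [abs_mul, abs_of_pos h6]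
      nlinarith [mul_le_mul_of_nonneg_left (show 1 ≤ Z ^ 2 * E by nlinarith) n2]
    have q2 : |v * S (ax 5)| ≤ 2 * Z * S (ax 5) := by
      rw [abs_mul, abs_of_pos h5]
      nlinarith
    rw [abs_mul, abs_mul]
    nlinarith [mul_le_mul_of_nonneg_left q1 n1, mul_le_mul_of_nonneg_left q2 n2]
  · obtain ⟨a, b⟩ := sign_spec (J := J) hS j hv hZ hW h5 (by
      nlinarith [mul_le_mul_of_nonneg_left (show 4 ≤ Z ^ 2 * E by nlinarith) n1]) _ rfl
    rw [mid, opv, if_neg (by omega), if_neg (by omega), if_neg (by omega), if_neg (by omega),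
      if_neg (by omega), if_neg (by omega), if_neg (by omega), if_neg (by omega)]
    exact ⟨a, (mul_le_mul_of_nonneg_left hJ (abs_nonneg _)).trans b⟩

/-- The translation of one instruction; denominators are stored with a shift by one. -/
def tr (K J : ℕ) (s : Ins (ℕ × ℕ)) : List (Ins (ℕ × ℕ × ℕ)) :=
  [(2, ax 5, (2, s.2.2.1), ax 9), (2, ax 6, (2, s.2.2.2), ax 9)] ++ mid K J s ++
    [(2, (1, s.2.1), ax 1, ax 8), (3, (2, s.2.1), ax 2, ax 9)]

/-- The fractions approximate the values with error at most `1 / E`. -/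
def Near (R : ℕ × ℕ → ℤ) (S : ℕ × ℕ × ℕ → ℤ) (E : ℤ) : Prop :=
  ∀ r, 0 < S (2, r) + 1 ∧ |S (1, r) - R r * (S (2, r) + 1)| * E ≤ S (2, r) + 1

theorem tr_spec {K J : ℕ} {S : ℕ × ℕ × ℕ → ℤ} (hS : Cst K S) (s : Ins (ℕ × ℕ)) {R : ℕ × ℕ → ℤ}
    {Z E : ℤ} (hR : ∀ r, |R r| ≤ Z) (hZ : 4 ≤ Z) (hW : Z ^ 2 = 2 ^ 2 ^ K) (hE : 4 ≤ E)
    (hJ : E ≤ 2 ^ 2 ^ J) (h : Near R S (Z ^ 2 * E)) :
    Cst K (run (tr K J s) S) ∧ Near (step R s) (run (tr K J s) S) E := by
  rw [tr, run_append, run_append]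
  generalize hT : run [(2, ax 5, (2, s.2.2.1), ax 9), (2, ax 6, (2, s.2.2.2), ax 9)] S = T
  have k1 : ∀ r, ¬ Tmp r → T r = S r := fun r hr => by
    rw [← hT]
    exact keep_tmp (by simp [Tmp]) _ _ hr
  have n1 : ∀ n, 8 ≤ n → ¬ Tmp (ax n) := fun n hn e => by
    have := e.2
    simp only at this
    omega
  have n2 : ∀ r, ¬ Tmp (1, r) := fun r e => absurd e.1 (by simp)
  have n3 : ∀ r, ¬ Tmp (2, r) := fun r e => absurd e.1 (by simp)
  have t0 : Cst K T := hS.of_keep fun n hn => k1 _ (n1 n hn)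
  have t5 : T (ax 5) = S (2, s.2.2.1) + 1 := by
    rw [← hT, ← hS.2.1]
    simp [step_apply]
  have t6 : T (ax 6) = S (2, s.2.2.2) + 1 := by
    rw [← hT, ← hS.2.1]
    simp [step_apply]
  obtain ⟨a, b⟩ := mid_spec (J := J) t0 s (hR s.2.2.1) (hR s.2.2.2) hZ hW hE hJ
    (by rw [t5]; exact (h _).1) (by rw [t6]; exact (h _).1)
    (by rw [t5, k1 _ (n2 _)]; exact (h _).2) (by rw [t6, k1 _ (n2 _)]; exact (h _).2)
  have k2 := keep_tmp (fun x hx => (mid_tmp K J s x hx).2) T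
  generalize run (mid K J s) T = U at a b k2
  have u0 : Cst K U := t0.of_keep fun n hn => k2 _ (n1 n hn)
  refine ⟨u0.of_keep fun n hn => by simp [step_apply], fun r => ?_⟩
  by_cases e : r = s.2.1
  · subst e
    simpa [step_apply, u0.1, u0.2.1] using And.intro a b
  · have f := mul_le_mul_of_nonneg_left (show E ≤ Z ^ 2 * E from
      le_mul_of_one_le_left (by omega) (by nlinarith))
      (abs_nonneg (S (1, r) - R r * (S (2, r) + 1)))
    simpa [step_apply, e, k2 _ (n2 r), k2 _ (n3 r), k1 _ (n2 r), k1 _ (n3 r)] using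
      And.intro (h r).1 (f.trans (h r).2)

/-- The table of constants. -/
def cst (K : ℕ) : List (Ins (ℕ × ℕ × ℕ)) :=
  [(1, ax 9, ax 8, ax 8), (2, ax 10, ax 9, ax 9)] ++
    (List.range K).flatMap fun k => [(4, ax (11 + k), ax (10 + k), ax (10 + k))]

theorem cst_spec (K : ℕ) : Cst K (run (cst K) 0) ∧ ∀ r, r.1 ≠ 0 → run (cst K) 0 r = 0 := by
  rw [cst, run_append]
  refine run_range _ (fun k U => Cst k U ∧ ∀ r : ℕ × ℕ × ℕ, r.1 ≠ 0 → U r = 0) K _
    ⟨⟨by simp [step_apply], by simp [step_apply], fun k hk => ?_⟩, fun r hr => ?_⟩ ?_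
  · obtain rfl : k = 0 := by omega
    simp [step_apply]
  · simp [step_apply, Prod.ext_iff, hr]
  · rintro i - U ⟨⟨a, b, c⟩, d⟩
    have e1 : 8 ≠ 11 + i := by omega
    have e2 : 9 ≠ 11 + i := by omega
    refine ⟨⟨by simpa [step_apply, e1] using a, by simpa [step_apply, e2] using b,
      fun k hk => ?_⟩, fun r hr => by simpa [step_apply, Prod.ext_iff, hr] using d r hr⟩
    rcases hk.lt_or_eq with hk | rfl
    · have e3 : 10 + k ≠ 11 + i := by omega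
      simpa [step_apply, e3] using c k (by omega)
    · have e3 : 10 + (i + 1) = 11 + i := by omega
      rw [pow_succ 2 i, pow_mul, ← c i le_rfl, e3]
      simp [step_apply, sq]

theorem abs_step {ρ : Type} [DecidableEq ρ] {R : ρ → ℤ} {B : ℤ} (hB : 2 ≤ B)
    (h : ∀ r, |R r| ≤ B) (s : Ins ρ) (r : ρ) : |step R s r| ≤ B ^ 2 := by
  have a := h s.2.2.1
  have b := h s.2.2.2
  rw [step_apply, opv]
  split_ifs
  · simp; positivity
  · rw [abs_one]; nlinarith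
  · nlinarith [abs_add_le (R s.2.2.1) (R s.2.2.2)]
  · nlinarith [abs_sub (R s.2.2.1) (R s.2.2.2)]
  · rw [abs_mul, sq]
    exact mul_le_mul a b (abs_nonneg _) (by omega)
  · rw [abs_one]; nlinarith
  · simp; positivity
  · nlinarith [h r]

theorem sim_spec (m : ℕ) (Q : List (Ins (ℕ × ℕ))) (hQ : Q.length ≤ m) :
    (∀ r, |run Q 0 r| ≤ 2 ^ 2 ^ Q.length) ∧
    Cst (m + 2) (run (Q.flatMap (tr (m + 2) (2 * m + 3))) (run (cst (m + 2)) 0)) ∧
    Near (run Q 0) (run (Q.flatMap (tr (m + 2) (2 * m + 3))) (run (cst (m + 2)) 0))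
      (4 * (2 ^ 2 ^ (m + 2)) ^ (m - Q.length)) := by
  induction Q using List.reverseRecOn with
  | nil =>
    refine ⟨fun r => by simp, (cst_spec _).1, fun r => ?_⟩
    simp [(cst_spec (m + 2)).2 (1, r) (by simp), (cst_spec (m + 2)).2 (2, r) (by simp)]
  | append_singleton Q s ih =>
    rw [List.length_append, List.length_singleton] at hQ ⊢
    obtain ⟨a, b, c⟩ := ih (by omega)
    have e : ((2 : ℤ) ^ 2 ^ (m + 1)) ^ 2 = 2 ^ 2 ^ (m + 2) := by rw [pow_succ 2 (m + 1), pow_mul]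
    rw [List.flatMap_append, List.flatMap_singleton, run_append, run_append, run_cons, run_nil]
    refine ⟨fun r => ?_, tr_spec b s (Z := 2 ^ 2 ^ (m + 1)) (fun r => (a r).trans ?_) ?_ e ?_ ?_ ?_⟩
    · rw [pow_succ 2 Q.length, pow_mul]
      exact abs_step (le_self_pow₀ one_le_two (by positivity)) a s r
    · exact pow_le_pow_right₀ one_le_two (Nat.pow_le_pow_right two_pos (by omega))
    · exact (by norm_num : (4 : ℤ) = 2 ^ 2 ^ 1).le.trans
        (pow_le_pow_right₀ one_le_two (Nat.pow_le_pow_right two_pos (by omega)))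
    · exact le_mul_of_one_le_right (by norm_num) (one_le_pow₀ (one_le_pow₀ one_le_two))
    · rw [← pow_mul, show (4 : ℤ) = 2 ^ 2 by norm_num, ← pow_add]
      refine pow_le_pow_right₀ one_le_two ?_
      have f1 : m - (Q.length + 1) ≤ 2 ^ m := (Nat.sub_le _ _).trans Nat.lt_two_pow_self.le
      have f2 := Nat.mul_le_mul_left (2 ^ (m + 2)) f1
      have f3 : 2 ^ 1 ≤ 2 ^ (2 * m + 2) := Nat.pow_le_pow_right two_pos (by omega)
      rw [← pow_add, show m + 2 + m = 2 * m + 2 by ring] at f2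
      rw [pow_succ 2 (2 * m + 2)]
      omega
    · rwa [e, mul_left_comm, ← pow_succ', show m - (Q.length + 1) + 1 = m - Q.length by omega]

theorem exists_elim : ∃ e : List (Ins (ℕ × ℕ)) × ℕ → List (Ins (ℕ × ℕ × ℕ)), PT e ∧
    ∀ P n, (∀ s ∈ e (P, n), s.1 ≤ 4) ∧ 0 < run (e (P, n)) 0 (ax 2) ∧
      |run (e (P, n)) 0 (ax 0) - (2 * run P 0 (0, 0) - 1) * run (e (P, n)) 0 (ax 2)| * 2 ^ 2 ^ n ≤
        run (e (P, n)) 0 (ax 2) := by
  have h1 : PT newt := by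
    unfold newt
    fun_prop
  have h2 : PT fun p : ℕ × ℕ => iter p.1 p.2 := by
    unfold iter
    fun_prop
  have h3 : PT fun p : (ℕ × ℕ) × Ins (ℕ × ℕ) => mid p.1.1 p.1.2 p.2 := by
    unfold mid
    exact PT.ite (by fun_prop) (by fun_prop) (PT.ite (by fun_prop) (by fun_prop)
      (PT.ite (by fun_prop) (by fun_prop) (PT.append (PT.append (by fun_prop)
        (h2.comp (f := fun p : (ℕ × ℕ) × Ins (ℕ × ℕ) => p.1) (by fun_prop))) (by fun_prop))))
  have h4 : PT fun p : (ℕ × ℕ) × Ins (ℕ × ℕ) => tr p.1.1 p.1.2 p.2 := by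
    unfold tr
    exact PT.append (PT.append (by fun_prop) h3) (by fun_prop)
  have h5 : PT cst := by
    unfold cst
    fun_prop
  refine ⟨fun p => cst (p.1.length + p.2 + 1 + 2) ++
    p.1.flatMap (tr (p.1.length + p.2 + 1 + 2) (2 * (p.1.length + p.2 + 1) + 3)) ++
    [(2, ax 2, (2, 0, 0), ax 9), (2, ax 1, (1, 0, 0), (1, 0, 0)), (3, ax 0, ax 1, ax 2)],
    PT.append (PT.append (by fun_prop) (PT.flatMap (h4.comp
      (f := fun p : (List (Ins (ℕ × ℕ)) × ℕ) × Ins (ℕ × ℕ) =>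
        ((p.1.1.length + p.1.2 + 1 + 2, 2 * (p.1.1.length + p.1.2 + 1) + 3), p.2)) (by fun_prop))
      (by fun_prop))) (PT.const _), fun P n => ⟨fun s hs => ?_, ?_⟩⟩
  · simp only [cst, tr, List.mem_append, List.mem_flatMap] at hs
    rcases hs with ((hs | ⟨k, -, hs⟩) | ⟨x, -, (hs | hs) | hs⟩) | hs
    · revert s; simp
    · revert s; simp
    · revert s; simp
    · exact (mid_tmp _ _ _ s hs).1
    · revert s; simp
    · revert s; simp
  · obtain ⟨-, b, c⟩ := sim_spec (P.length + n + 1) P (by omega)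
    obtain ⟨c1, c2⟩ := c (0, 0)
    simp only [run_append]
    generalize run (P.flatMap (tr (P.length + n + 1 + 2) (2 * (P.length + n + 1) + 3))) _ = U
      at b c1 c2
    generalize run P 0 (0, 0) = v at c2
    have f1 : (2 : ℤ) ^ 2 ^ n ≤ (2 ^ 2 ^ (P.length + n + 1 + 2)) ^ (P.length + n + 1 - P.length) :=
      (pow_le_pow_right₀ one_le_two (Nat.pow_le_pow_right two_pos (by omega))).trans
        (le_self_pow₀ (one_le_pow₀ one_le_two) (by omega))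
    have v0 : run [(2, ax 2, (2, 0, 0), ax 9), (2, ax 1, (1, 0, 0), (1, 0, 0)),
        (3, ax 0, ax 1, ax 2)] U (ax 0) = U (1, 0, 0) + U (1, 0, 0) - (U (2, 0, 0) + 1) := by
      simp [step_apply, b.2.1]
    have v2 : run [(2, ax 2, (2, 0, 0), ax 9), (2, ax 1, (1, 0, 0), (1, 0, 0)),
        (3, ax 0, ax 1, ax 2)] U (ax 2) = U (2, 0, 0) + 1 := by simp [step_apply, b.2.1]
    rw [v0, v2, show U (1, 0, 0) + U (1, 0, 0) - (U (2, 0, 0) + 1) - (2 * v - 1) * (U (2, 0, 0) + 1) =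
      2 * (U (1, 0, 0) - v * (U (2, 0, 0) + 1)) by ring, abs_mul, abs_two]
    have f2 := mul_le_mul_of_nonneg_left f1 (abs_nonneg (U (1, 0, 0) - v * (U (2, 0, 0) + 1)))
    have f3 : 0 ≤ |U (1, 0, 0) - v * (U (2, 0, 0) + 1)| * 2 ^ 2 ^ n := by positivity
    exact ⟨c1, by linarith⟩

end Pool.Agent.MP_7d676c_m
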